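import Mathlib

/-!
# Recoding a continuous family of perfect closed sets

A closed set `K` in `A × Z` with perfect non-empty fibres over `A`, depending on the parameter in a
locally constant way, is homeomorphic over `A` to `A × (ℕ → Bool)`.
-/

namespace Pool.Agent.FlipC

open Set Filter Topology

section Bits

variable {Z : Type*} [TopologicalSpace Z]

/-- In a compact space with a separating sequence of continuous bits, convergence of all bits is
convergence. -/
theorem tendsto_of_bits [CompactSpace Z] (b : ℕ → Z → Bool) (hb : ∀ i, Continuous (b i))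
    (hinj : ∀ z z', (∀ i, b i z = b i z') → z = z') (u : ℕ → Z) (z : Z)
    (h : ∀ i, ∀ᶠ n in atTop, b i (u n) = b i z) : Tendsto u atTop (𝓝 z) := by
  have hc : Continuous (fun z => fun i => b i z : Z → ℕ → Bool) := continuous_pi hb
  have hi : Function.Injective (fun z => fun i => b i z : Z → ℕ → Bool) := by
    intro z z' h
    exact hinj z z' (fun i => congrFun h i)
  have he := (hc.isClosedEmbedding hi)
  rw [he.isInducing.tendsto_nhds_iff]
  rw [tendsto_pi_nhds]
  intro i
  exact tendsto_nhds_of_eventually_eq (h i)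

end Bits

section Recode

variable {A Z : Type*} [TopologicalSpace A] [TopologicalSpace Z]

/-- Position `n` is splitting for the bit sequence `w` in the fibre over `a`. -/
def Sp (K : Set (A × Z)) (b : ℕ → Z → Bool) (a : A) (w : ℕ → Bool) (n : ℕ) : Prop :=
  ∀ c : Bool, ∃ z, (a, z) ∈ K ∧ (∀ i < n, b i z = w i) ∧ b n z = c

theorem Sp_congr (K : Set (A × Z)) (b : ℕ → Z → Bool) (a : A) {w w' : ℕ → Bool} {n : ℕ}
    (h : ∀ i < n, w i = w' i) : Sp K b a w n ↔ Sp K b a w' n := by
  unfold Sp
  refine forall_congr' fun c => exists_congr fun z => ?_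
  refine and_congr Iff.rfl (and_congr ?_ Iff.rfl)
  refine forall_congr' fun i => forall_congr' fun hi => ?_
  rw [h i hi]

/-- The recoded point. -/
noncomputable def dec (K : Set (A × Z)) (b : ℕ → Z → Bool) (a : A) (w : ℕ → Bool) (m : ℕ) : Bool :=
  w (Nat.nth (Sp K b a w) m)

open Classical in
/-- If two predicates agree up to and including the place of the `m`-th element of the first, then the
`m`-th elements agree. -/
theorem nth_congr_le {p q : ℕ → Prop} (hp : (setOf p).Infinite) (m : ℕ)
    (h : ∀ i ≤ Nat.nth p m, (p i ↔ q i)) : Nat.nth q m = Nat.nth p m := by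
  set n := Nat.nth p m with hn
  have hpn : p n := Nat.nth_mem_of_infinite hp m
  have hqn : q n := (h n le_rfl).1 hpn
  have hc : Nat.count q n = Nat.count p n := by
    rw [Nat.count_eq_card_filter_range, Nat.count_eq_card_filter_range]
    congr 1
    ext i
    simp only [Finset.mem_filter, Finset.mem_range]
    constructor
    · rintro ⟨h1, h2⟩
      exact ⟨h1, (h i h1.le).2 h2⟩
    · rintro ⟨h1, h2⟩
      exact ⟨h1, (h i h1.le).1 h2⟩
  have h1 : Nat.count p n = m := by
    rw [hn]; exact Nat.count_nth_of_infinite hp m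
  have h2 : Nat.nth q (Nat.count q n) = n := Nat.nth_count hqn
  rw [hc, h1] at h2
  exact h2

variable (K : Set (A × Z)) (b : ℕ → Z → Bool)

theorem sp_infinite
    (perf : ∀ a z n, (a, z) ∈ K → ∃ z', z' ≠ z ∧ (a, z') ∈ K ∧ ∀ i < n, b i z' = b i z)
    (hinj : ∀ z z', (∀ i, b i z = b i z') → z = z')
    {a : A} {z : Z} (hz : (a, z) ∈ K) : (setOf (Sp K b a (fun i => b i z))).Infinite := by
  rw [Set.infinite_iff_exists_gt]
  intro N
  obtain ⟨z', hne, hz', hag⟩ := perf a z (N + 1) hz
  have hex : ∃ i, b i z' ≠ b i z := by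
    by_contra hcon
    push Not at hcon
    exact hne (hinj _ _ hcon)
  classical
  let n := Nat.find hex
  have hn : b n z' ≠ b n z := Nat.find_spec hex
  have hlt : ∀ i < n, b i z' = b i z := by
    intro i hi
    have := Nat.find_min hex hi
    push Not at this
    exact this
  refine ⟨n, ?_, ?_⟩
  · intro c
    by_cases hc : c = b n z
    · exact ⟨z, hz, fun i _ => rfl, hc.symm⟩
    · refine ⟨z', hz', hlt, ?_⟩
      revert hc hn
      cases b n z' <;> cases b n z <;> cases c <;> simp
  · by_contra hle
    push Not at hle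
    exact hn (hag n (by omega))

theorem dec_injective
    (perf : ∀ a z n, (a, z) ∈ K → ∃ z', z' ≠ z ∧ (a, z') ∈ K ∧ ∀ i < n, b i z' = b i z)
    (hinj : ∀ z z', (∀ i, b i z = b i z') → z = z')
    {a : A} {z z' : Z} (hz : (a, z) ∈ K) (hz' : (a, z') ∈ K)
    (h : dec K b a (fun i => b i z) = dec K b a (fun i => b i z')) : z = z' := by
  by_contra hne
  have hex : ∃ i, b i z ≠ b i z' := by
    by_contra hcon
    push Not at hcon
    exact hne (hinj _ _ hcon)
  classical
  let n := Nat.find hex
  have hn : b n z ≠ b n z' := Nat.find_spec hex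
  have hlt : ∀ i < n, b i z = b i z' := by
    intro i hi
    have := Nat.find_min hex hi
    push Not at this
    exact this
  have hs : Sp K b a (fun i => b i z) n := by
    intro c
    by_cases hc : c = b n z
    · exact ⟨z, hz, fun i _ => rfl, hc.symm⟩
    · refine ⟨z', hz', fun i hi => (hlt i hi).symm, ?_⟩
      revert hc hn
      cases b n z' <;> cases b n z <;> cases c <;> simp
  have hinf := sp_infinite K b perf hinj hz
  set m := Nat.count (Sp K b a (fun i => b i z)) n with hm
  have h1 : Nat.nth (Sp K b a (fun i => b i z)) m = n := Nat.nth_count hs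
  have h2 : Nat.nth (Sp K b a (fun i => b i z')) m = n := by
    rw [← h1]
    refine nth_congr_le hinf m ?_
    intro i hi
    rw [h1] at hi
    exact Sp_congr K b a (fun j hj => hlt j (lt_of_lt_of_le hj hi))
  have h3 := congrFun h m
  unfold dec at h3
  rw [h1, h2] at h3
  exact hn h3

theorem dec_approx
    (perf : ∀ a z n, (a, z) ∈ K → ∃ z', z' ≠ z ∧ (a, z') ∈ K ∧ ∀ i < n, b i z' = b i z)
    (hinj : ∀ z z', (∀ i, b i z = b i z') → z = z')
    (ne : ∀ a, ∃ z, (a, z) ∈ K) (a : A) (y : ℕ → Bool) (M : ℕ) :
    ∃ z, (a, z) ∈ K ∧ ∀ m < M, dec K b a (fun i => b i z) m = y m := by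
  induction M with
  | zero =>
    obtain ⟨z, hz⟩ := ne a
    exact ⟨z, hz, fun m hm => absurd hm (Nat.not_lt_zero m)⟩
  | succ M ih =>
    obtain ⟨z, hz, hy⟩ := ih
    have hinf := sp_infinite K b perf hinj hz
    set n := Nat.nth (Sp K b a (fun i => b i z)) M with hn
    have hs : Sp K b a (fun i => b i z) n := Nat.nth_mem_of_infinite hinf M
    obtain ⟨z', hz', hag, hy'⟩ := hs (y M)
    refine ⟨z', hz', ?_⟩
    have key : ∀ m ≤ M, Nat.nth (Sp K b a (fun i => b i z')) m =
        Nat.nth (Sp K b a (fun i => b i z)) m := by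
      intro m hm
      refine nth_congr_le hinf m ?_
      intro i hi
      refine Sp_congr K b a (fun j hj => ?_)
      refine (hag j ?_).symm
      have : Nat.nth (Sp K b a (fun i => b i z)) m ≤ n := Nat.nth_monotone hinf hm
      omega
    intro m hm
    unfold dec
    rw [key m (by omega)]
    rcases Nat.lt_succ_iff_lt_or_eq.1 hm with h | h
    · have hlt : Nat.nth (Sp K b a (fun i => b i z)) m < n := Nat.nth_strictMono hinf h
      have h5 := hag _ hlt
      have h6 := hy m h
      unfold dec at h6
      exact h5.trans h6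
    · subst h
      exact hy'

/-- The recoding homeomorphism. -/
theorem recode [CompactSpace A] [T2Space A] [CompactSpace Z] (hK : IsClosed K)
    (hb : ∀ i, Continuous (b i))
    (hinj : ∀ z z', (∀ i, b i z = b i z') → z = z')
    (ne : ∀ a, ∃ z, (a, z) ∈ K)
    (perf : ∀ a z n, (a, z) ∈ K → ∃ z', z' ≠ z ∧ (a, z') ∈ K ∧ ∀ i < n, b i z' = b i z)
    (op : ∀ (n : ℕ) (s : ℕ → Bool) (c : Bool),
      IsOpen {a | ∃ z, (a, z) ∈ K ∧ (∀ i < n, b i z = s i) ∧ b n z = c}) :
    ∃ e : K ≃ₜ A × (ℕ → Bool), ∀ z : K, (e z).1 = z.1.1 := by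
  have : CompactSpace K := isCompact_iff_compactSpace.1 hK.isCompact
  let F : K → A × (ℕ → Bool) := fun z => (z.1.1, dec K b z.1.1 (fun i => b i z.1.2))
  have hFinj : Function.Injective F := by
    rintro ⟨⟨a, z⟩, hz⟩ ⟨⟨a', z'⟩, hz'⟩ h
    simp only [F, Prod.mk.injEq] at h
    obtain ⟨rfl, h2⟩ := h
    have := dec_injective K b perf hinj hz hz' h2
    subst this
    rfl
  have clo : ∀ (n : ℕ) (s : ℕ → Bool) (c : Bool),
      IsClosed {a | ∃ z, (a, z) ∈ K ∧ (∀ i < n, b i z = s i) ∧ b n z = c} := by
    intro n s c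
    have h1 : IsClosed (K ∩ {x : A × Z | (∀ i < n, b i x.2 = s i) ∧ b n x.2 = c}) := by
      refine hK.inter ?_
      refine IsClosed.inter ?_ ?_
      · have : {x : A × Z | ∀ i < n, b i x.2 = s i} =
            ⋂ i, ⋂ (_ : i < n), {x : A × Z | b i x.2 = s i} := by ext x; simp
        change IsClosed {x : A × Z | ∀ i < n, b i x.2 = s i}
        rw [this]
        refine isClosed_iInter fun i => isClosed_iInter fun _ => ?_
        exact isClosed_eq ((hb i).comp continuous_snd) continuous_const
      · exact isClosed_eq ((hb n).comp continuous_snd) continuous_const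
    have h2 := isClosedMap_fst_of_compactSpace (X := A) (Y := Z) _ h1
    convert h2 using 1
    ext a
    constructor
    · rintro ⟨z, h1, h2, h3⟩
      exact ⟨(a, z), ⟨h1, h2, h3⟩, rfl⟩
    · rintro ⟨⟨a', z⟩, ⟨h1, h2, h3⟩, rfl⟩
      exact ⟨z, h1, h2, h3⟩
  have hspo : ∀ (s : ℕ → Bool) (n : ℕ), IsClopen {a | Sp K b a s n} := by
    intro s n
    have : {a | Sp K b a s n} = ⋂ c : Bool,
        {a | ∃ z, (a, z) ∈ K ∧ (∀ i < n, b i z = s i) ∧ b n z = c} := by
      ext a; simp [Sp]
    rw [this]
    exact isClopen_iInter_of_finite fun c => ⟨clo n s c, op n s c⟩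
  have hFc : Continuous F := by
    refine (continuous_fst.comp continuous_subtype_val).prodMk (continuous_pi fun m => ?_)
    rw [continuous_iff_continuousAt]
    rintro ⟨⟨a, z⟩, hz⟩
    have hinf := sp_infinite K b perf hinj hz
    set n := Nat.nth (Sp K b a (fun i => b i z)) m with hn
    have h1 : ∀ᶠ x : K in 𝓝 (⟨(a, z), hz⟩ : K), ∀ i ∈ Finset.range (n + 1), b i x.1.2 = b i z := by
      rw [Finset.eventually_all]
      intro i _
      have hc : Continuous (fun x : K => b i x.1.2) :=
        (hb i).comp (continuous_snd.comp continuous_subtype_val)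
      exact ((isOpen_discrete {b i z}).preimage hc).mem_nhds
        (show (⟨(a, z), hz⟩ : K) ∈ (fun x : K => b i x.1.2) ⁻¹' {b i z} from rfl)
    have h2 : ∀ᶠ x : K in 𝓝 (⟨(a, z), hz⟩ : K), ∀ i ∈ Finset.range (n + 1),
        (Sp K b x.1.1 (fun i => b i z) i ↔ Sp K b a (fun i => b i z) i) := by
      rw [Finset.eventually_all]
      intro i _
      have hc : Continuous (fun x : K => x.1.1) := continuous_fst.comp continuous_subtype_val
      by_cases hsp : Sp K b a (fun i => b i z) i
      · have := ((hspo (fun i => b i z) i).isOpen.preimage hc).mem_nhds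
          (show (⟨(a, z), hz⟩ : K) ∈ (fun x : K => x.1.1) ⁻¹' {a | Sp K b a (fun i => b i z) i}
            from hsp)
        filter_upwards [this] with x hx
        exact ⟨fun _ => hsp, fun _ => hx⟩
      · have := ((hspo (fun i => b i z) i).compl.isOpen.preimage hc).mem_nhds
          (show (⟨(a, z), hz⟩ : K) ∈ (fun x : K => x.1.1) ⁻¹' {a | Sp K b a (fun i => b i z) i}ᶜ
            from hsp)
        filter_upwards [this] with x hx
        exact ⟨fun h => absurd h hx, fun h => absurd h hsp⟩
    refine tendsto_nhds_of_eventually_eq ?_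
    filter_upwards [h1, h2] with x hx1 hx2
    change dec K b x.1.1 (fun i => b i x.1.2) m = dec K b a (fun i => b i z) m
    unfold dec
    have h3 : Nat.nth (Sp K b x.1.1 (fun i => b i x.1.2)) m = n := by
      refine nth_congr_le hinf m ?_
      intro i hi
      have hi' : i ∈ Finset.range (n + 1) := Finset.mem_range.2 (by omega)
      rw [← hx2 i hi']
      refine Sp_congr K b x.1.1 (fun j hj => ?_)
      exact (hx1 j (Finset.mem_range.2 (by have := Finset.mem_range.1 hi'; omega))).symm
    rw [h3]
    exact hx1 n (Finset.mem_range.2 (by omega))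
  have hFs : Function.Surjective F := by
    intro ay
    obtain ⟨a, y⟩ := ay
    have hcl : IsClosed (Set.range F) := (isCompact_range hFc).isClosed
    choose z hz hy using fun M => dec_approx K b perf hinj ne a y M
    have ht : Tendsto (fun M => F ⟨(a, z M), hz M⟩) atTop (𝓝 (a, y)) := by
      refine Tendsto.prodMk_nhds ?_ ?_
      · exact tendsto_const_nhds
      · rw [tendsto_pi_nhds]
        intro m
        refine tendsto_nhds_of_eventually_eq ?_
        filter_upwards [eventually_gt_atTop m] with M hM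
        exact hy M m hM
    exact hcl.mem_of_tendsto ht (Eventually.of_forall fun M => ⟨_, rfl⟩)
  refine ⟨Continuous.homeoOfEquivCompactToT2 (f := Equiv.ofBijective F ⟨hFinj, hFs⟩) hFc, ?_⟩
  intro z
  rfl

end Recode

end Pool.Agent.FlipC
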