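import Mathlib

/-!
# The odometer over all primes and its coordinates
-/

namespace Pool.Agent.FlipC

open Set Filter Topology

/-- The `m`-th prime. -/
noncomputable abbrev pr (m : ℕ) : ℕ := Nat.nth Nat.Prime m

instance fact_pr (m : ℕ) : Fact (Nat.Prime (pr m)) :=
  ⟨Nat.nth_mem_of_infinite Nat.infinite_setOf_prime m⟩

/-- The odometer over all primes. -/
abbrev Odo : Type := ∀ m : ℕ, ZMod (Nat.nth Nat.Prime m)

instance fact_nth (m : ℕ) : Fact (Nat.Prime (Nat.nth Nat.Prime m)) := fact_pr m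

instance neZero_nth (m : ℕ) : NeZero (Nat.nth Nat.Prime m) := ⟨(fact_pr m).out.ne_zero⟩

theorem le_pr (m : ℕ) : m ≤ Nat.nth Nat.Prime m :=
  (Nat.nth_strictMono Nat.infinite_setOf_prime).le_apply

/-- Integers congruent modulo infinitely many of the primes are equal. -/
theorem int_inj {φ : ℕ → ℕ} (hφ : Function.Injective φ) {c d : ℤ}
    (h : ∀ k, (c : ZMod (Nat.nth Nat.Prime (φ k))) = (d : ZMod (Nat.nth Nat.Prime (φ k)))) :
    c = d := by
  obtain ⟨m, ⟨k, rfl⟩, hk⟩ := (Set.infinite_range_of_injective hφ).exists_gt (|d - c|).toNat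
  have h1 := h k
  rw [ZMod.intCast_eq_intCast_iff_dvd_sub] at h1
  have h2 : |d - c| < (Nat.nth Nat.Prime (φ k) : ℤ) := by
    have h3 := le_pr (φ k)
    have h4 : |d - c| < (φ k : ℤ) := by
      have := Int.toNat_of_nonneg (abs_nonneg (d - c))
      rw [← this]
      exact_mod_cast hk
    have : (φ k : ℤ) ≤ (Nat.nth Nat.Prime (φ k) : ℤ) := by exact_mod_cast h3
    omega
  have h3 := Int.eq_zero_of_abs_lt_dvd h1 h2
  omega

/-- Chinese remainder theorem on the first `M` coordinates. -/
theorem crt (a : Odo) (M : ℕ) :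
    ∃ k : ℕ, ∀ m < M, (k : ZMod (Nat.nth Nat.Prime m)) = a m := by
  induction M with
  | zero => exact ⟨0, fun m hm => absurd hm (Nat.not_lt_zero m)⟩
  | succ M ih =>
    obtain ⟨k, hk⟩ := ih
    have hco : Nat.Coprime (∏ i ∈ Finset.range M, Nat.nth Nat.Prime i) (Nat.nth Nat.Prime M) := by
      refine Nat.Coprime.prod_left fun i hi => ?_
      rw [Nat.coprime_primes (fact_pr i).out (fact_pr M).out]
      intro h
      have := Nat.nth_injective Nat.infinite_setOf_prime h
      have := Finset.mem_range.1 hi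
      omega
    obtain ⟨x, hx1, hx2⟩ := Nat.chineseRemainder hco k (a M).val
    refine ⟨x, fun m hm => ?_⟩
    rcases Nat.lt_succ_iff_lt_or_eq.1 hm with h | h
    · rw [← hk m h]
      rw [ZMod.natCast_eq_natCast_iff]
      exact hx1.of_dvd (Finset.dvd_prod_of_mem _ (Finset.mem_range.2 h))
    · subst h
      have h3 : ((x : ℕ) : ZMod (Nat.nth Nat.Prime m)) = ((a m).val : ZMod (Nat.nth Nat.Prime m)) := by
        rw [ZMod.natCast_eq_natCast_iff]; exact hx2
      rw [h3, ZMod.natCast_zmod_val]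

/-- Indices of groups of coordinates: a reference, private ones, nodes. -/
abbrev Ix : Type := Option (ℕ ⊕ (ℕ × ℕ))

/-- Coordinates are pairs (index, number). -/
noncomputable def co : Ix × ℕ ≃ ℕ := Denumerable.eqv (Ix × ℕ)

theorem co_inj (i : Ix) : Function.Injective (fun k => co (i, k)) := by
  intro k k' h
  have := co.injective h
  exact (Prod.mk.inj this).2

theorem co_inj_par (i : Ix) (r : ℕ) : Function.Injective (fun k => co (i, 2 * k + r)) := by
  intro k k' h
  have := co_inj i h
  omega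

/-- The parent map on node names. -/
def par (t : ℕ) : ℕ := (Nat.unpair t).1

/-- Cut points: integers together with finitely supported integer functions. -/
abbrev Pt : Type := ℤ × (ℕ →₀ ℤ)

/-- The indices seen by the `n`-th family. -/
def Fm (n : ℕ) : Ix → Prop
  | none => True
  | some (Sum.inl m) => m = n
  | some (Sum.inr (l, _)) => l = n ∨ l + 1 = n

/-- The value of the cut point `p` of the `n`-th family at an index. -/
noncomputable def ev (n : ℕ) (p : Pt) : Ix → ℤ
  | none => p.1
  | some (Sum.inl _) => p.1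
  | some (Sum.inr (l, s)) =>
      if l = n then p.1 + p.2 s else p.1 + (Finsupp.mapDomain par p.2) s

theorem ev_sub (n : ℕ) (p q : Pt) (i : Ix) : ev n (p - q) i = ev n p i - ev n q i := by
  have hm : Finsupp.mapDomain par (p.2 - q.2) =
      Finsupp.mapDomain par p.2 - Finsupp.mapDomain par q.2 :=
    map_sub (Finsupp.mapDomain.addMonoidHom par) p.2 q.2
  rcases i with _ | (m | ⟨l, s⟩)
  · simp [ev]
  · simp [ev]
  · simp only [ev]
    split_ifs
    · simp only [Prod.fst_sub, Prod.snd_sub, Finsupp.coe_sub, Pi.sub_apply]; ring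
    · simp only [Prod.fst_sub, Prod.snd_sub, hm, Finsupp.coe_sub, Pi.sub_apply]; ring

theorem ev_smul (n : ℕ) (r : ℤ) (p : Pt) (i : Ix) : ev n (r • p) i = r * ev n p i := by
  have hm : Finsupp.mapDomain par (r • p.2) = r • Finsupp.mapDomain par p.2 :=
    Finsupp.mapDomain_smul r p.2
  rcases i with _ | (m | ⟨l, s⟩)
  · simp [ev]
  · simp [ev]
  · simp only [ev]
    split_ifs
    · simp only [Prod.smul_fst, Prod.smul_snd, Finsupp.coe_smul, Pi.smul_apply, smul_eq_mul]; ring
    · simp only [Prod.smul_fst, Prod.smul_snd, hm, Finsupp.coe_smul, Pi.smul_apply, smul_eq_mul]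
      ring

theorem ev_int (n : ℕ) (c : ℤ) (i : Ix) : ev n (c, 0) i = c := by
  rcases i with _ | (m | ⟨l, s⟩)
  · simp [ev]
  · simp [ev]
  · simp [ev]

/-- Coordinates seen by the `n`-th family. -/
def Jm (n m : ℕ) : Prop := Fm n (co.symm m).1

/-- Value of the cut point at a coordinate. -/
noncomputable def E (n : ℕ) (p : Pt) (m : ℕ) : ℤ := ev n p (co.symm m).1

theorem E_sub (n : ℕ) (p q : Pt) (m : ℕ) : E n (p - q) m = E n p m - E n q m := ev_sub n p q _

theorem E_smul (n : ℕ) (r : ℤ) (p : Pt) (m : ℕ) : E n (r • p) m = r * E n p m := ev_smul n r p _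

theorem E_int (n : ℕ) (c : ℤ) (m : ℕ) : E n (c, 0) m = c := ev_int n c _

/-- A hit: the odometer point agrees with the cut point on the coordinates of the family. -/
def Hit (n : ℕ) (p : Pt) (g : Odo) : Prop :=
  ∀ m, Jm n m → g m = ((E n p m : ℤ) : ZMod (Nat.nth Nat.Prime m))

theorem Hit.ev_eq {n : ℕ} {p : Pt} {g : Odo} (h : Hit n p g) {n' : ℕ} {p' : Pt}
    (h' : Hit n' p' g) {i : Ix} (hi : Fm n i) (hi' : Fm n' i) : ev n p i = ev n' p' i := by
  refine int_inj (co_inj i) (fun k => ?_)
  have h1 := h (co (i, k)) (by simpa [Jm] using hi)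
  have h2 := h' (co (i, k)) (by simpa [Jm] using hi')
  rw [h1] at h2
  simpa [E] using h2

theorem Hit.unique {n : ℕ} {p p' : Pt} {g : Odo} (h : Hit n p g) (h' : Hit n p' g) : p = p' := by
  have h1 : p.1 = p'.1 := h.ev_eq h' (i := none) trivial trivial
  refine Prod.ext h1 ?_
  ext s
  have h2 := h.ev_eq h' (i := some (Sum.inr (n, s))) (Or.inl rfl) (Or.inl rfl)
  simp only [ev, if_true, h1] at h2
  omega

end Pool.Agent.FlipC
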