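import Pool.Agent.FlipC.Recode
import Pool.Agent.FlipC.Odo

/-!
# The cut systems over the odometer
-/

namespace Pool.Agent.FlipC

open Set Filter Topology

/-- Parameters: a bit and a tree. -/
abbrev Par : Type := Bool × (ℕ → ℕ → Bool)

/-- Total sum. -/
noncomputable def tot (h : ℕ →₀ ℤ) : ℤ := h.sum fun _ a => a

theorem tot_sub (h h' : ℕ →₀ ℤ) : tot (h - h') = tot h - tot h' :=
  Finsupp.sum_sub_index (fun _ _ _ => rfl)

theorem tot_smul (r : ℤ) (h : ℕ →₀ ℤ) : tot (r • h) = r * tot h := by
  unfold tot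
  rw [Finsupp.sum_smul_index (fun _ => rfl), Finsupp.sum, Finsupp.sum, Finset.mul_sum]

theorem tot_single (s : ℕ) (a : ℤ) : tot (Finsupp.single s a) = a := by
  simp [tot]

/-- The value attached to the bit. -/
def bv (c : Bool) : ℤ := if c then 1 else 0

/-- Valid cut points. -/
def Val (t : Par) (n : ℕ) (p : Pt) : Prop :=
  (n = 0 → tot p.2 = bv t.1) ∧ (0 < n → ∀ s ∈ p.2.support, t.2 n s = true)

/-- The ambient space. -/
abbrev Om : Type := Odo × (ℕ → Pt → Bool)

/-- First coordinate where the odometer point differs from the cut point. -/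
def Fst (n : ℕ) (p : Pt) (g : Odo) (m : ℕ) : Prop :=
  (Jm n m ∧ g m ≠ ((E n p m : ℤ) : ZMod (Nat.nth Nat.Prime m))) ∧
    ∀ m' < m, Jm n m' → g m' = ((E n p m' : ℤ) : ZMod (Nat.nth Nat.Prime m'))

open Classical in
/-- The side of the cut read off at a coordinate. -/
noncomputable def bt (n m : ℕ) : Bool :=
  decide ((co.symm m).1 = some (Sum.inl n) ∧ Odd (co.symm m).2)

/-- The cut system with parameter `t`. -/
def KK (t : Par) : Set Om :=
  {z | ∀ n p, (Val t n p → ∀ m, Fst n p z.1 m → z.2 n p = bt n m) ∧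
    (¬ Val t n p → z.2 n p = false)}

theorem Fst.unique {n : ℕ} {p : Pt} {g : Odo} {m m' : ℕ} (h : Fst n p g m) (h' : Fst n p g m') :
    m = m' := by
  rcases lt_trichotomy m m' with hlt | heq | hlt
  · exact absurd (h'.2 m hlt h.1.1) h.1.2
  · exact heq
  · exact absurd (h.2 m' hlt h'.1.1) h'.1.2

theorem exists_Fst {n : ℕ} {p : Pt} {g : Odo} (h : ¬ Hit n p g) : ∃ m, Fst n p g m := by
  classical
  unfold Hit at h
  push Not at h
  have hex : ∃ m, Jm n m ∧ g m ≠ ((E n p m : ℤ) : ZMod (Nat.nth Nat.Prime m)) := h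
  refine ⟨Nat.find hex, Nat.find_spec hex, fun m' hm' hJ => ?_⟩
  have := Nat.find_min hex hm'
  by_contra hne
  exact this ⟨hJ, hne⟩

theorem Hit.not_Fst {n : ℕ} {p : Pt} {g : Odo} (h : Hit n p g) (m : ℕ) : ¬ Fst n p g m :=
  fun h' => h'.1.2 (h m h'.1.1)

open Classical in
/-- Default values. -/
noncomputable def dflt (t : Par) (g : Odo) (n : ℕ) (p : Pt) : Bool :=
  decide (Val t n p ∧ ∃ m, Fst n p g m ∧ bt n m = true)

theorem dflt_spec (t : Par) (g : Odo) (n : ℕ) (p : Pt) :
    (Val t n p → ∀ m, Fst n p g m → dflt t g n p = bt n m) ∧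
      (¬ Val t n p → dflt t g n p = false) := by
  classical
  constructor
  · intro hv m hm
    unfold dflt
    by_cases hb : bt n m = true
    · rw [hb]
      exact decide_eq_true ⟨hv, m, hm, hb⟩
    · have hb' : bt n m = false := by simpa using hb
      rw [hb']
      refine decide_eq_false ?_
      rintro ⟨_, m', hm', hb2⟩
      rw [hm'.unique hm] at hb2
      exact hb hb2
  · intro hv
    unfold dflt
    exact decide_eq_false fun h => hv h.1

theorem dflt_mem (t : Par) (g : Odo) : ((g, dflt t g) : Om) ∈ KK t := fun n p => dflt_spec t g n p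

/-- Two points of a cut system over one odometer point differ only at hits. -/
theorem exists_hit {t : Par} {z z' : Om} (hz : z ∈ KK t) (hz' : z' ∈ KK t) (h1 : z.1 = z'.1)
    (hne : z ≠ z') : ∃ n p, Val t n p ∧ Hit n p z.1 := by
  by_contra hcon
  push Not at hcon
  apply hne
  refine Prod.ext h1 ?_
  funext n p
  by_cases hv : Val t n p
  · obtain ⟨m, hm⟩ := exists_Fst (hcon n p hv)
    rw [(hz n p).1 hv m hm]
    rw [h1] at hm
    rw [(hz' n p).1 hv m hm]
  · rw [(hz n p).2 hv, (hz' n p).2 hv]

/-- Translations of the ambient space. -/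
noncomputable def tr (θ : Odo) (q : ℕ → Pt) (z : Om) : Om := (z.1 + θ, fun n p => z.2 n (p - q n))

theorem tr_tr (θ θ' : Odo) (q q' : ℕ → Pt) (z : Om) :
    tr θ q (tr θ' q' z) = tr (θ' + θ) (q + q') z := by
  refine Prod.ext ?_ ?_
  · simp only [tr]; rw [add_assoc]
  · funext n p
    simp only [tr, Pi.add_apply]
    rw [sub_add_eq_sub_sub]

theorem tr_zero (z : Om) : tr 0 0 z = z := by
  refine Prod.ext ?_ ?_
  · simp [tr]
  · funext n p
    simp [tr]

theorem continuous_tr (θ : Odo) (q : ℕ → Pt) : Continuous (tr θ q) := by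
  refine (continuous_fst.add continuous_const).prodMk ?_
  refine continuous_pi fun n => continuous_pi fun p => ?_
  exact (continuous_apply (p - q n)).comp ((continuous_apply n).comp continuous_snd)

theorem Fst_add {θ : Odo} {q : Pt} {n : ℕ} (hθ : Hit n q θ) (p : Pt) (g : Odo) (m : ℕ) :
    Fst n p (g + θ) m ↔ Fst n (p - q) g m := by
  have key : ∀ m, Jm n m → ((g + θ) m = ((E n p m : ℤ) : ZMod (Nat.nth Nat.Prime m)) ↔
      g m = ((E n (p - q) m : ℤ) : ZMod (Nat.nth Nat.Prime m))) := by
    intro m hm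
    rw [Pi.add_apply, hθ m hm, E_sub, Int.cast_sub]
    exact eq_sub_iff_add_eq.symm
  unfold Fst
  refine and_congr ?_ ?_
  · constructor
    · rintro ⟨h1, h2⟩
      exact ⟨h1, fun h => h2 ((key m h1).2 h)⟩
    · rintro ⟨h1, h2⟩
      exact ⟨h1, fun h => h2 ((key m h1).1 h)⟩
  · refine forall_congr' fun m' => forall_congr' fun hm' => forall_congr' fun hJ => ?_
    exact key m' hJ

/-- A translation maps a cut system to another one. -/
theorem tr_mem {t t' : Par} {θ : Odo} {q : ℕ → Pt} (hθ : ∀ n, Hit n (q n) θ)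
    (hv : ∀ n p, Val t' n p ↔ Val t n (p - q n)) {z : Om} (hz : z ∈ KK t) :
    tr θ q z ∈ KK t' := by
  intro n p
  constructor
  · intro h m hm
    exact (hz n (p - q n)).1 ((hv n p).1 h) m ((Fst_add (hθ n) p z.1 m).1 hm)
  · intro h
    exact (hz n (p - q n)).2 (fun h' => h ((hv n p).2 h'))

/-- The integer translation. -/
noncomputable def sg (k : ℤ) : Om → Om := tr ((k : Odo)) (fun _ => (k, 0))

theorem Val_int (t : Par) (n : ℕ) (p : Pt) (k : ℤ) : Val t n p ↔ Val t n (p - (k, 0)) := by
  unfold Val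
  simp

theorem hit_int (k : ℤ) (n : ℕ) : Hit n (k, 0) ((k : ℤ) : Odo) := by
  intro m _
  rw [E_int]
  rfl

theorem sg_mem {t : Par} (k : ℤ) {z : Om} (hz : z ∈ KK t) : sg k z ∈ KK t :=
  tr_mem (fun n => hit_int k n) (fun n p => Val_int t n p k) hz

theorem sg_sg (k l : ℤ) (z : Om) : sg k (sg l z) = sg (k + l) z := by
  unfold sg
  rw [tr_tr]
  congr 1
  · push_cast; rw [add_comm]

theorem sg_zero (z : Om) : sg 0 z = z := by
  have : sg 0 = tr 0 0 := by
    unfold sg
    congr 1
    simp
  rw [this, tr_zero]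

theorem continuous_sg (k : ℤ) : Continuous (sg k) := continuous_tr _ _

/-! ### Topology -/

theorem isClopen_imp {X : Type*} [TopologicalSpace X] {p q : X → Prop} (hp : IsClopen {x | p x})
    (hq : IsClopen {x | q x}) : IsClopen {x | p x → q x} := by
  have : {x | p x → q x} = {x | p x}ᶜ ∪ {x | q x} := by
    ext x
    simp only [Set.mem_union, Set.mem_compl_iff]
    exact imp_iff_not_or
  rw [this]
  exact hp.compl.union hq

theorem isClopen_val (n : ℕ) (p : Pt) : IsClopen {t : Par | Val t n p} := by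
  have h1 : IsClopen {t : Par | n = 0 → tot p.2 = bv t.1} := by
    have : {t : Par | n = 0 → tot p.2 = bv t.1} =
        (fun t : Par => t.1) ⁻¹' {c : Bool | n = 0 → tot p.2 = bv c} := rfl
    rw [this]
    exact (isClopen_discrete _).preimage continuous_fst
  have h2 : IsClopen {t : Par | 0 < n → ∀ s ∈ p.2.support, t.2 n s = true} := by
    by_cases hn : 0 < n
    · have : {t : Par | 0 < n → ∀ s ∈ p.2.support, t.2 n s = true} =
          ⋂ s ∈ p.2.support, {t : Par | t.2 n s = true} := by
        ext t; simp [hn]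
      rw [this]
      refine isClopen_biInter_finset fun s _ => ?_
      have hc : Continuous (fun t : Par => t.2 n s) :=
        (continuous_apply s).comp ((continuous_apply n).comp continuous_snd)
      exact (isClopen_discrete {true}).preimage hc
    · have : {t : Par | 0 < n → ∀ s ∈ p.2.support, t.2 n s = true} = Set.univ := by
        ext t; simp [hn]
      rw [this]; exact isClopen_univ
  exact h1.inter h2

theorem isClopen_coord (m : ℕ) (a : ZMod (Nat.nth Nat.Prime m)) : IsClopen {g : Odo | g m = a} :=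
  (isClopen_discrete {a}).preimage (continuous_apply m)

theorem isClopen_Fst (n : ℕ) (p : Pt) (m : ℕ) : IsClopen {g : Odo | Fst n p g m} := by
  have h1 : IsClopen {g : Odo | Jm n m ∧ g m ≠ ((E n p m : ℤ) : ZMod (Nat.nth Nat.Prime m))} := by
    by_cases hJ : Jm n m
    · have := (isClopen_coord m ((E n p m : ℤ) : ZMod (Nat.nth Nat.Prime m))).compl
      convert this using 1
      ext g; simp [hJ]
    · have : {g : Odo | Jm n m ∧ g m ≠ ((E n p m : ℤ) : ZMod (Nat.nth Nat.Prime m))} = ∅ := by
        ext g; simp [hJ]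
      rw [this]; exact isClopen_empty
  have h2 : IsClopen {g : Odo | ∀ m' < m, Jm n m' →
      g m' = ((E n p m' : ℤ) : ZMod (Nat.nth Nat.Prime m'))} := by
    have : {g : Odo | ∀ m' < m, Jm n m' →
        g m' = ((E n p m' : ℤ) : ZMod (Nat.nth Nat.Prime m'))} =
        ⋂ m' ∈ Finset.range m, {g : Odo | Jm n m' →
          g m' = ((E n p m' : ℤ) : ZMod (Nat.nth Nat.Prime m'))} := by
      ext g; simp
    rw [this]
    refine isClopen_biInter_finset fun m' _ => ?_
    by_cases hJ : Jm n m'
    · convert isClopen_coord m' ((E n p m' : ℤ) : ZMod (Nat.nth Nat.Prime m')) using 1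
      ext g; simp [hJ]
    · convert isClopen_univ using 1
      ext g; simp [hJ]
  exact h1.inter h2

theorem isClosed_hit (n : ℕ) (p : Pt) : IsClosed {g : Odo | Hit n p g} := by
  have : {g : Odo | Hit n p g} = ⋂ m, ⋂ (_ : Jm n m), {g : Odo | g m =
      ((E n p m : ℤ) : ZMod (Nat.nth Nat.Prime m))} := by
    ext g; simp [Hit]
  rw [this]
  exact isClosed_iInter fun m => isClosed_iInter fun _ => (isClopen_coord m _).isClosed

/-- The total space of the family. -/
def KT : Set (Par × Om) := {x | x.2 ∈ KK x.1}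

theorem isClosed_KT : IsClosed KT := by
  have hval : ∀ n p, IsClopen {x : Par × Om | Val x.1 n p} := fun n p =>
    (isClopen_val n p).preimage continuous_fst
  have hfst : ∀ n p m, IsClopen {x : Par × Om | Fst n p x.2.1 m} := fun n p m =>
    (isClopen_Fst n p m).preimage (continuous_fst.comp continuous_snd)
  have hco : ∀ n p (c : Bool), IsClopen {x : Par × Om | x.2.2 n p = c} := by
    intro n p c
    have hc : Continuous (fun x : Par × Om => x.2.2 n p) :=
      (continuous_apply p).comp ((continuous_apply n).comp (continuous_snd.comp continuous_snd))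
    exact (isClopen_discrete {c}).preimage hc
  have : KT = ⋂ n, ⋂ p, ({x : Par × Om | ¬ Val x.1 n p → x.2.2 n p = false} ∩
      ⋂ m, {x : Par × Om | Val x.1 n p → Fst n p x.2.1 m → x.2.2 n p = bt n m}) := by
    ext x
    simp only [KT, KK, Set.mem_iInter, Set.mem_inter_iff]
    constructor
    · intro h n p
      exact ⟨(h n p).2, fun m hv => (h n p).1 hv m⟩
    · intro h n p
      exact ⟨fun hv m => (h n p).2 m hv, (h n p).1⟩
  rw [this]
  refine isClosed_iInter fun n => isClosed_iInter fun p => IsClosed.inter ?_ ?_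
  · exact (isClopen_imp (hval n p).compl (hco n p false)).isClosed
  · refine isClosed_iInter fun m => ?_
    exact (isClopen_imp (hval n p) (isClopen_imp (hfst n p m) (hco n p _))).isClosed

end Pool.Agent.FlipC
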