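import Mathlib

/-!
# Regular almost one-to-one extensions of the odometer over all primes
-/

namespace Pool.Agent.FlipC

open MeasureTheory

/-- Cantor space. -/
abbrev Cantor : Type := ℕ → Bool

/-- `T` is a minimal homeomorphism of Cantor space, with all forward orbits dense. -/
def MinHomeo (T : C(Cantor, Cantor)) : Prop :=
  (∃ e : Cantor ≃ₜ Cantor, ∀ x, e x = T x) ∧
    ∀ x : Cantor, Dense (Set.range fun n : ℕ => (⇑T)^[n] x)

/-- `T` is a minimal homeomorphism of Cantor space that is a regular almost one-to-one extension of the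
odometer `x ↦ x + 1` on the product of the groups `ℤ/p` over all primes `p`: there is a continuous
factor map `π` such that almost every point of the odometer has exactly one preimage. -/
def RegExt (T : C(Cantor, Cantor)) : Prop :=
  MinHomeo T ∧
    ∃ π : C(Cantor, ∀ m : ℕ, ZMod (Nat.nth Nat.Prime m)), (∀ x, π (T x) = π x + 1) ∧
      ∀ (_ : MeasurableSpace (∀ m : ℕ, ZMod (Nat.nth Nat.Prime m)))
        (_ : BorelSpace (∀ m : ℕ, ZMod (Nat.nth Nat.Prime m)))
        (ν : Measure (∀ m : ℕ, ZMod (Nat.nth Nat.Prime m))), IsProbabilityMeasure ν →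
        ν.map (fun g => g + 1) = ν → ν {g | ¬ ∃! x, π x = g} = 0

/-- Topological conjugacy. -/
def Conj (T S : C(Cantor, Cantor)) : Prop := ∃ h : Cantor ≃ₜ Cantor, ∀ x, h (T x) = S (h x)

/-- `S` is a topological factor of `T`. -/
def Factor (T S : C(Cantor, Cantor)) : Prop :=
  ∃ φ : C(Cantor, Cantor), Function.Surjective φ ∧ ∀ x, φ (T x) = S (φ x)

/-- The inverse of `S` is a topological factor of `T`. -/
def InvFactor (T S : C(Cantor, Cantor)) : Prop :=
  ∃ φ : C(Cantor, Cantor), Function.Surjective φ ∧ ∀ x, S (φ (T x)) = φ x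

end Pool.Agent.FlipC
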