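import Pool.Agent.FlipC.Defs

/-!
# Realisation of families of systems on Cantor space
-/

namespace Pool.Agent.FlipC

open Set Filter Topology

/-- A closed family of systems with perfect fibres that is homeomorphic to a product with Cantor space
is realised by a continuous family of self-maps of Cantor space. -/
theorem family_gen {A Z : Type*} [TopologicalSpace A] [TopologicalSpace Z] (K : Set (A × Z))
    (e : K ≃ₜ A × Cantor) (he : ∀ z : K, (e z).1 = z.1.1) (s : Z → Z) (hs : Continuous s)
    (hK : ∀ a z, (a, z) ∈ K → (a, s z) ∈ K) :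
    ∃ (F : C(A, C(Cantor, Cantor))) (Ψ : ∀ a : A, {z : Z // (a, z) ∈ K} ≃ₜ Cantor),
      ∀ a z, F a (Ψ a z) = Ψ a ⟨s z.1, hK a z.1 z.2⟩ := by
  have he' : ∀ x : A × Cantor, (e.symm x).1.1 = x.1 := by
    intro x
    have := he (e.symm x)
    rw [e.apply_symm_apply] at this
    exact this.symm
  let sT : K → K := fun z => ⟨(z.1.1, s z.1.2), hK z.1.1 z.1.2 z.2⟩
  have hsT : Continuous sT := by
    refine Continuous.subtype_mk ?_ _
    exact (continuous_fst.comp continuous_subtype_val).prodMk
      (hs.comp (continuous_snd.comp continuous_subtype_val))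
  let f : C(A × Cantor, Cantor) := ⟨fun x => (e (sT (e.symm x))).2,
    continuous_snd.comp (e.continuous.comp (hsT.comp e.symm.continuous))⟩
  have hmem : ∀ (a : A) (w : Cantor), (a, (e.symm (a, w)).1.2) ∈ K := by
    intro a w
    have h2 : ((e.symm (a, w)).1.1, (e.symm (a, w)).1.2) ∈ K := (e.symm (a, w)).2
    rw [he'] at h2
    exact h2
  let Ψ : ∀ a : A, {z : Z // (a, z) ∈ K} ≃ₜ Cantor := fun a =>
    { toFun := fun z => (e ⟨(a, z.1), z.2⟩).2
      invFun := fun w => ⟨(e.symm (a, w)).1.2, hmem a w⟩
      left_inv := fun z => by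
        refine Subtype.ext ?_
        change (e.symm (a, (e ⟨(a, z.1), z.2⟩).2)).1.2 = z.1
        have h1 : ((a, (e ⟨(a, z.1), z.2⟩).2) : A × Cantor) = e ⟨(a, z.1), z.2⟩ := by
          refine Prod.ext ?_ rfl
          exact (he ⟨(a, z.1), z.2⟩).symm
        rw [h1, e.symm_apply_apply]
      right_inv := fun w => by
        have h1 : (⟨(a, (e.symm (a, w)).1.2), hmem a w⟩ : K) = e.symm (a, w) := by
          refine Subtype.ext (Prod.ext ?_ rfl)
          exact (he' (a, w)).symm
        change (e ⟨(a, (e.symm (a, w)).1.2), _⟩).2 = w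
        rw [h1, e.apply_symm_apply]
      continuous_toFun := by
        refine continuous_snd.comp (e.continuous.comp ?_)
        exact (continuous_const.prodMk continuous_subtype_val).subtype_mk _
      continuous_invFun := by
        refine Continuous.subtype_mk ?_ _
        refine continuous_snd.comp (continuous_subtype_val.comp (e.symm.continuous.comp ?_))
        exact continuous_const.prodMk continuous_id }
  refine ⟨f.curry, Ψ, fun a z => ?_⟩
  change (e (sT (e.symm (a, (e ⟨(a, z.1), z.2⟩).2)))).2 = (e ⟨(a, s z.1), _⟩).2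
  have h1 : ((a, (e ⟨(a, z.1), z.2⟩).2) : A × Cantor) = e ⟨(a, z.1), z.2⟩ := by
    refine Prod.ext ?_ rfl
    exact (he ⟨(a, z.1), z.2⟩).symm
  rw [h1, e.symm_apply_apply]

end Pool.Agent.FlipC
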