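import Pool.Agent.FlipC.Rig

/-!
# The cut systems are almost everywhere one to one over the odometer
-/

namespace Pool.Agent.FlipC

open Set Filter Topology MeasureTheory

theorem odo_iter (m : ℕ) (g : Odo) : (fun g : Odo => g + 1)^[m] g = g + (m : Odo) := by
  induction m with
  | zero => simp
  | succ m ih =>
    rw [Function.iterate_succ_apply', ih]
    push_cast
    ring

theorem hit_null (n : ℕ) (p : Pt) [MeasurableSpace Odo] [BorelSpace Odo] (ν : Measure Odo)
    [IsProbabilityMeasure ν] (hν : ν.map (fun g => g + 1) = ν) : ν {g | Hit n p g} = 0 := by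
  by_contra hne
  have hc : Continuous (fun g : Odo => g + 1) := continuous_id.add continuous_const
  have hmp : MeasurePreserving (fun g : Odo => g + 1) ν ν := ⟨hc.measurable, hν⟩
  obtain ⟨g, hg, m, hm, hgm⟩ := hmp.exists_mem_iterate_mem
    (isClosed_hit n p).measurableSet.nullMeasurableSet hne
  rw [odo_iter] at hgm
  apply hm
  have h0 : (m : ℤ) = 0 := by
    refine int_inj (co_inj none) (fun k => ?_)
    have h1 : g (co (none, k)) = _ := hg (co (none, k)) ((Jm_co _ _ _).2 trivial)
    have h2 : (g + (m : Odo)) (co (none, k)) = _ := hgm (co (none, k)) ((Jm_co _ _ _).2 trivial)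
    rw [Pi.add_apply, h1] at h2
    have h3 := add_eq_left.1 h2
    rw [Int.cast_natCast, Int.cast_zero]
    exact h3
  exact_mod_cast h0

/-- The projection of the cut system to the odometer is one to one almost everywhere. -/
theorem proj_null (t : Par) [MeasurableSpace Odo] [BorelSpace Odo] (ν : Measure Odo)
    [IsProbabilityMeasure ν] (hν : ν.map (fun g => g + 1) = ν) :
    ν {g | ¬ ∃! z : KS t, z.1.1 = g} = 0 := by
  refine measure_mono_null (t := ⋃ n, ⋃ p, {g | Hit n p g}) ?_ ?_
  · intro g hg
    by_contra hcon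
    apply hg
    refine ⟨⟨(g, dflt t g), dflt_mem t g⟩, rfl, ?_⟩
    intro z hz
    refine Subtype.ext ?_
    by_contra hne
    obtain ⟨n, p, _, hH⟩ := exists_hit z.2 (dflt_mem t g) hz hne
    apply hcon
    rw [Set.mem_iUnion]
    refine ⟨n, ?_⟩
    rw [Set.mem_iUnion]
    refine ⟨p, ?_⟩
    rw [← hz]
    exact hH
  · rw [measure_iUnion_null_iff]
    intro n
    rw [measure_iUnion_null_iff]
    intro p
    exact hit_null n p ν hν

end Pool.Agent.FlipC
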