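import Pool.Agent.FlipC.Odo

/-!
# Trees of analytic sets, and an analytic set that is not Borel
-/

namespace Pool.Agent.FlipC

open Set Filter Topology MeasureTheory

/-- Codes of initial segments. -/
def cd (y : ℕ → ℕ) : ℕ → ℕ
  | 0 => y 0
  | (n + 1) => Nat.pair (cd y n) (y (n + 1))

theorem par_cd (y : ℕ → ℕ) (n : ℕ) : par (cd y (n + 1)) = cd y n := by
  simp [par, cd]

theorem cd_inj {y y' : ℕ → ℕ} {n : ℕ} (h : cd y n = cd y' n) : ∀ i ≤ n, y i = y' i := by
  induction n with
  | zero =>
    intro i hi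
    have : i = 0 := by omega
    subst this
    exact h
  | succ n ih =>
    simp only [cd] at h
    have h1 := Nat.pair_eq_pair.1 h
    intro i hi
    rcases Nat.lt_or_ge i (n + 1) with hlt | hge
    · exact ih h1.1 i (by omega)
    · have : i = n + 1 := by omega
      subst this
      exact h1.2

theorem cd_of_par {v : ℕ → ℕ} (hv : ∀ n, par (v (n + 1)) = v n) :
    ∃ y : ℕ → ℕ, ∀ n, cd y n = v n := by
  refine ⟨fun n => match n with
    | 0 => v 0
    | (k + 1) => (Nat.unpair (v (k + 1))).2, fun n => ?_⟩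
  induction n with
  | zero => rfl
  | succ n ih =>
    simp only [cd]
    rw [ih, ← hv n]
    exact Nat.pair_unpair _

/-- A Boolean function of finitely many coordinates is continuous. -/
theorem continuous_of_fin (n : ℕ) (F : (ℕ → ℕ) → Bool)
    (h : ∀ a a' : ℕ → ℕ, (∀ i < n, a i = a' i) → F a = F a') : Continuous F := by
  rw [continuous_iff_continuousAt]
  intro a
  have hU : IsOpen (⋂ i ∈ Finset.range n, {a' : ℕ → ℕ | a' i = a i}) := by
    refine isOpen_biInter_finset fun i _ => ?_
    have hc : Continuous (fun a' : ℕ → ℕ => a' i) := continuous_apply i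
    exact (isOpen_discrete {a i}).preimage hc
  have hmem : a ∈ ⋂ i ∈ Finset.range n, {a' : ℕ → ℕ | a' i = a i} := by simp
  refine tendsto_nhds_of_eventually_eq ?_
  filter_upwards [hU.mem_nhds hmem] with a' ha'
  refine h a' a (fun i hi => ?_)
  have : ∀ i < n, a' i = a i := by simpa using ha'
  exact this i hi

/-- Every analytic set is the set of parameters whose tree has an infinite branch, for a continuous
family of trees. -/
theorem exists_trees {A : Set (ℕ → ℕ)} (hA : AnalyticSet A) :
    ∃ τ : (ℕ → ℕ) → (ℕ → ℕ → Bool), Continuous τ ∧ ∀ a, a ∈ A ↔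
      ∃ v : ℕ → ℕ, (∀ n, par (v (n + 1)) = v n) ∧ ∀ n, 0 < n → τ a n (v n) = true := by
  classical
  rw [AnalyticSet] at hA
  rcases hA with rfl | ⟨f, hf, rfl⟩
  · refine ⟨fun _ _ _ => false, continuous_const, fun a => ?_⟩
    constructor
    · intro h; exact absurd h (Set.notMem_empty a)
    · rintro ⟨v, _, hv⟩
      exact absurd (hv 1 one_pos) (by simp)
  · refine ⟨fun a n s => decide (∃ y, cd y n = s ∧ ∀ i < n, f y i = a i), ?_, fun a => ?_⟩
    · refine continuous_pi fun n => continuous_pi fun s => ?_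
      refine continuous_of_fin n _ (fun a a' h => ?_)
      have : (∃ y, cd y n = s ∧ ∀ i < n, f y i = a i) ↔ (∃ y, cd y n = s ∧ ∀ i < n, f y i = a' i) := by
        refine exists_congr fun y => and_congr Iff.rfl ?_
        refine forall_congr' fun i => forall_congr' fun hi => ?_
        rw [h i hi]
      simp only [this]
    · constructor
      · rintro ⟨y, rfl⟩
        exact ⟨cd y, par_cd y, fun n _ => decide_eq_true ⟨y, rfl, fun i _ => rfl⟩⟩
      · rintro ⟨v, hv1, hv2⟩
        obtain ⟨y, hy⟩ := cd_of_par hv1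
        have h1 : ∀ n, ∃ x, cd x (n + 1) = v (n + 1) ∧ ∀ i < n + 1, f x i = a i := fun n =>
          of_decide_eq_true (hv2 (n + 1) (Nat.succ_pos n))
        choose x hx1 hx2 using h1
        have hxy : Tendsto x atTop (𝓝 y) := by
          rw [tendsto_pi_nhds]
          intro i
          refine tendsto_nhds_of_eventually_eq ?_
          filter_upwards [eventually_ge_atTop i] with n hn
          refine cd_inj ((hx1 n).trans (hy (n + 1)).symm) i (by omega)
        have hfx : Tendsto (fun n => f (x n)) atTop (𝓝 (f y)) := (hf.tendsto y).comp hxy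
        have hfa : Tendsto (fun n => f (x n)) atTop (𝓝 a) := by
          rw [tendsto_pi_nhds]
          intro i
          refine tendsto_nhds_of_eventually_eq ?_
          filter_upwards [eventually_ge_atTop i] with n hn
          exact hx2 n i (by omega)
        exact ⟨y, tendsto_nhds_unique hfx hfa⟩

/-- Closed sets coded by sequences. -/
def Cl (b : ℕ → Set ((ℕ → ℕ) × (ℕ → ℕ))) (x : ℕ → ℕ) : Set ((ℕ → ℕ) × (ℕ → ℕ)) :=
  {u | ∀ k, x k = 0 ∨ u ∉ b k}

/-- There is an analytic subset of the Baire space that is not Borel. -/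
theorem exists_analytic_not_borel :
    ∃ D : Set (ℕ → ℕ), AnalyticSet D ∧ ¬ @MeasurableSet (ℕ → ℕ) (borel (ℕ → ℕ)) D := by
  classical
  let X := ℕ → ℕ
  obtain ⟨B, hBc, _, hB⟩ := TopologicalSpace.exists_countable_basis (X × X)
  have hBne : B.Nonempty := by
    obtain ⟨s, hs, _, _⟩ := hB.exists_subset_of_mem_open (Set.mem_univ ((0, 0) : X × X))
      isOpen_univ
    exact ⟨s, hs⟩
  obtain ⟨b, hb⟩ := hBc.exists_eq_range hBne
  have hbo : ∀ k, IsOpen (b k) := fun k => hB.isOpen (by rw [hb]; exact ⟨k, rfl⟩)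
  have hcode : ∀ C : Set (X × X), IsClosed C → ∃ x : X, Cl b x = C := by
    intro C hC
    refine ⟨fun k => if b k ⊆ Cᶜ then 1 else 0, ?_⟩
    ext u
    constructor
    · intro hu
      by_contra hcon
      obtain ⟨s, hs, hus, hsC⟩ := hB.exists_subset_of_mem_open (show u ∈ Cᶜ from hcon)
        hC.isOpen_compl
      rw [hb] at hs
      obtain ⟨k, rfl⟩ := hs
      rcases hu k with h | h
      · have h' : (if b k ⊆ Cᶜ then 1 else 0) = 0 := h
        rw [if_pos hsC] at h'
        exact one_ne_zero h'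
      · exact h hus
    · intro hu k
      by_cases hk : b k ⊆ Cᶜ
      · exact Or.inr fun h => hk h hu
      · exact Or.inl (if_neg hk)
  let D : Set X := {x | ∃ y, (x, y) ∈ Cl b x}
  have hDa : AnalyticSet D := by
    have hcl : IsClosed {u : X × X | u ∈ Cl b u.1} := by
      have : {u : X × X | u ∈ Cl b u.1} = ⋂ k, ({u : X × X | u.1 k = 0} ∪ (b k)ᶜ) := by
        ext u
        simp only [Cl, Set.mem_iInter, Set.mem_union]
        exact Iff.rfl
      rw [this]
      refine isClosed_iInter fun k => IsClosed.union ?_ (hbo k).isClosed_compl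
      exact isClosed_eq ((continuous_apply k).comp continuous_fst) continuous_const
    have := hcl.analyticSet.image_of_continuous (continuous_fst (X := X) (Y := X))
    convert this using 1
    ext x
    constructor
    · rintro ⟨y, hy⟩
      exact ⟨(x, y), hy, rfl⟩
    · rintro ⟨⟨x', y⟩, hy, rfl⟩
      exact ⟨y, hy⟩
  refine ⟨D, hDa, fun hD => ?_⟩
  have hDc : AnalyticSet Dᶜ := by
    letI : MeasurableSpace X := borel X
    haveI : BorelSpace X := ⟨rfl⟩
    exact (MeasurableSet.compl hD).analyticSet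
  have hx : ∃ C : Set (X × X), IsClosed C ∧ ∀ x, x ∈ Dᶜ ↔ ∃ y, (x, y) ∈ C := by
    rw [AnalyticSet] at hDc
    rcases hDc with h | ⟨f, hf, h⟩
    · exact ⟨∅, isClosed_empty, fun x => by simp [h]⟩
    · refine ⟨{u | f u.2 = u.1}, isClosed_eq (hf.comp continuous_snd) continuous_fst, fun x => ?_⟩
      rw [← h]
      exact Iff.rfl
  obtain ⟨C, hC, hCx⟩ := hx
  obtain ⟨x, rfl⟩ := hcode C hC
  have h1 : x ∈ Dᶜ ↔ x ∈ D := hCx x
  by_cases h2 : x ∈ D
  · exact (h1.2 h2) h2
  · exact h2 (h1.1 h2)

end Pool.Agent.FlipC
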