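import Pool.Agent.FlipC.Defs
import Pool.Agent.FlipC.Null
import Pool.Agent.FlipC.Tree

/-!
# Complexity of conjugacy on regular extensions of the odometer
-/

namespace Pool.Agent.FlipC

open Set Filter Topology MeasureTheory

/-- All cut systems, realised on Cantor space, continuously in the parameter. -/
theorem exists_family : ∃ (F : C(Par, C(Cantor, Cantor))) (Ψ : ∀ t : Par, KS t ≃ₜ Cantor),
    ∀ t z, F t (Ψ t z) = Ψ t (sk 1 z) := by
  obtain ⟨e, he⟩ := exists_recode
  have he' : ∀ x : Par × Cantor, (e.symm x).1.1 = x.1 := by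
    intro x
    have := he (e.symm x)
    rw [e.apply_symm_apply] at this
    exact this.symm
  let sT : KT → KT := fun z => ⟨(z.1.1, sg 1 z.1.2), sg_mem 1 (show z.1.2 ∈ KK z.1.1 from z.2)⟩
  have hsT : Continuous sT := by
    refine Continuous.subtype_mk ?_ _
    exact (continuous_fst.comp continuous_subtype_val).prodMk
      ((continuous_sg 1).comp (continuous_snd.comp continuous_subtype_val))
  let f : C(Par × Cantor, Cantor) := ⟨fun x => (e (sT (e.symm x))).2,
    continuous_snd.comp (e.continuous.comp (hsT.comp e.symm.continuous))⟩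
  let Ψ : ∀ t : Par, KS t ≃ₜ Cantor := fun t =>
    { toFun := fun z => (e ⟨(t, z.1), z.2⟩).2
      invFun := fun w => ⟨(e.symm (t, w)).1.2, by
        have h1 := (e.symm (t, w)).2
        have h2 : (e.symm (t, w)).1.2 ∈ KK (e.symm (t, w)).1.1 := h1
        rw [he'] at h2
        exact h2⟩
      left_inv := fun z => by
        refine Subtype.ext ?_
        change (e.symm (t, (e ⟨(t, z.1), z.2⟩).2)).1.2 = z.1
        have h1 : ((t, (e ⟨(t, z.1), z.2⟩).2) : Par × Cantor) = e ⟨(t, z.1), z.2⟩ := by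
          refine Prod.ext ?_ rfl
          exact (he ⟨(t, z.1), z.2⟩).symm
        rw [h1, e.symm_apply_apply]
      right_inv := fun w => by
        have h1 : (⟨(t, (e.symm (t, w)).1.2), by
            have h2 : (e.symm (t, w)).1.2 ∈ KK (e.symm (t, w)).1.1 := (e.symm (t, w)).2
            rw [he'] at h2
            exact h2⟩ : KT) = e.symm (t, w) := by
          refine Subtype.ext (Prod.ext ?_ rfl)
          exact (he' (t, w)).symm
        change (e ⟨(t, (e.symm (t, w)).1.2), _⟩).2 = w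
        rw [h1, e.apply_symm_apply]
      continuous_toFun := by
        refine continuous_snd.comp (e.continuous.comp ?_)
        exact (continuous_const.prodMk continuous_subtype_val).subtype_mk _
      continuous_invFun := by
        refine Continuous.subtype_mk ?_ _
        refine continuous_snd.comp (continuous_subtype_val.comp (e.symm.continuous.comp ?_))
        exact continuous_const.prodMk continuous_id }
  refine ⟨f.curry, Ψ, fun t z => ?_⟩
  change (e (sT (e.symm (t, (e ⟨(t, z.1), z.2⟩).2)))).2 = (e ⟨(t, (sk 1 z).1), _⟩).2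
  have h1 : ((t, (e ⟨(t, z.1), z.2⟩).2) : Par × Cantor) = e ⟨(t, z.1), z.2⟩ := by
    refine Prod.ext ?_ rfl
    exact (he ⟨(t, z.1), z.2⟩).symm
  rw [h1, e.symm_apply_apply]
  rfl

section

variable {F : C(Par, C(Cantor, Cantor))} {Ψ : ∀ t : Par, KS t ≃ₜ Cantor}
  (hF : ∀ t z, F t (Ψ t z) = Ψ t (sk 1 z))

include hF

theorem fam_symm (t : Par) (x : Cantor) : (Ψ t).symm (F t x) = sk 1 ((Ψ t).symm x) := by
  apply (Ψ t).injective
  rw [(Ψ t).apply_symm_apply, ← hF, (Ψ t).apply_symm_apply]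

theorem fam_iter (t : Par) (n : ℕ) (x : Cantor) :
    (⇑(F t))^[n] x = Ψ t (sk n ((Ψ t).symm x)) := by
  induction n with
  | zero =>
    rw [Function.iterate_zero_apply, Nat.cast_zero, sk_zero, (Ψ t).apply_symm_apply]
  | succ n ih =>
    rw [Function.iterate_succ_apply', ih, hF, sk_sk]
    congr 2
    push_cast
    ring

theorem fam_regExt (t : Par) : RegExt (F t) := by
  refine ⟨⟨?_, ?_⟩, ?_⟩
  · let s : KS t ≃ₜ KS t :=
      { toFun := sk 1
        invFun := sk (-1)
        left_inv := fun z => by rw [sk_sk]; norm_num; exact sk_zero z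
        right_inv := fun z => by rw [sk_sk]; norm_num; exact sk_zero z
        continuous_toFun := continuous_sk 1
        continuous_invFun := continuous_sk (-1) }
    refine ⟨((Ψ t).symm.trans s).trans (Ψ t), fun x => ?_⟩
    change Ψ t (sk 1 ((Ψ t).symm x)) = F t x
    rw [← hF, (Ψ t).apply_symm_apply]
  · intro x y
    obtain ⟨u, hu⟩ := kk_dense ((Ψ t).symm x).2 ((Ψ t).symm y).2
    have hu' : Tendsto (fun n => sk (u n) ((Ψ t).symm x)) atTop (𝓝 ((Ψ t).symm y)) := by
      rw [tendsto_subtype_rng]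
      exact hu
    have h1 : Tendsto (fun n => Ψ t (sk (u n) ((Ψ t).symm x))) atTop (𝓝 y) := by
      have := ((Ψ t).continuous.tendsto ((Ψ t).symm y)).comp hu'
      rw [(Ψ t).apply_symm_apply] at this
      exact this
    refine mem_closure_of_tendsto h1 (Eventually.of_forall fun n => ⟨u n, ?_⟩)
    exact fam_iter hF t (u n) x
  · refine ⟨⟨fun x => ((Ψ t).symm x).1.1,
      continuous_fst.comp (continuous_subtype_val.comp (Ψ t).symm.continuous)⟩, fun x => ?_, ?_⟩
    · change ((Ψ t).symm (F t x)).1.1 = ((Ψ t).symm x).1.1 + 1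
      rw [fam_symm hF]
      change ((Ψ t).symm x).1.1 + (((1 : ℤ) : ℤ) : Odo) = _
      rw [Int.cast_one]
    · intro i1 i2 ν hν hinv
      have h1 := @proj_null t i1 i2 ν hν hinv
      convert h1 using 2
      ext g
      refine not_congr ?_
      constructor
      · rintro ⟨x, hx, hu⟩
        refine ⟨(Ψ t).symm x, hx, fun z hz => ?_⟩
        have h2 := hu (Ψ t z) (by
          change ((Ψ t).symm (Ψ t z)).1.1 = g
          rw [(Ψ t).symm_apply_apply]; exact hz)
        rw [← h2, (Ψ t).symm_apply_apply]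
      · rintro ⟨z, hz, hu⟩
        refine ⟨Ψ t z, ?_, fun x hx => ?_⟩
        · change ((Ψ t).symm (Ψ t z)).1.1 = g
          rw [(Ψ t).symm_apply_apply]; exact hz
        · have h2 := hu ((Ψ t).symm x) hx
          rw [← h2, (Ψ t).apply_symm_apply]

theorem fam_conj {T : ℕ → ℕ → Bool} {v : ℕ → ℕ} (hv1 : ∀ n, par (v (n + 1)) = v n)
    (hv2 : ∀ n, 0 < n → T n (v n) = true) : Conj (F (false, T)) (F (true, T)) := by
  obtain ⟨I, hI⟩ := branch_iso hv1 hv2
  refine ⟨((Ψ (false, T)).symm.trans I).trans (Ψ (true, T)), fun x => ?_⟩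
  change Ψ (true, T) (I ((Ψ (false, T)).symm (F (false, T) x))) =
    F (true, T) (Ψ (true, T) (I ((Ψ (false, T)).symm x)))
  rw [fam_symm hF, hI, hF]

theorem fam_factor {T : ℕ → ℕ → Bool} {c c' : Bool} (hcc : c ≠ c')
    (h : Factor (F (c, T)) (F (c', T)) ∨ InvFactor (F (c, T)) (F (c', T))) :
    ∃ v : ℕ → ℕ, (∀ n, par (v (n + 1)) = v n) ∧ ∀ n, 0 < n → T n (v n) = true := by
  rcases h with ⟨φ, hs, hφ⟩ | ⟨φ, hs, hφ⟩
  · refine rigid_all hcc (Φ := fun z => (Ψ (c', T)).symm (φ (Ψ (c, T) z)))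
      ((Ψ (c', T)).symm.continuous.comp (φ.continuous.comp (Ψ (c, T)).continuous))
      ((Ψ (c', T)).symm.surjective.comp (hs.comp (Ψ (c, T)).surjective)) (Or.inl fun z => ?_)
    change (Ψ (c', T)).symm (φ (Ψ (c, T) (sk 1 z))) = sk 1 ((Ψ (c', T)).symm (φ (Ψ (c, T) z)))
    rw [← hF, hφ, fam_symm hF]
  · refine rigid_all hcc (Φ := fun z => (Ψ (c', T)).symm (φ (Ψ (c, T) z)))
      ((Ψ (c', T)).symm.continuous.comp (φ.continuous.comp (Ψ (c, T)).continuous))
      ((Ψ (c', T)).symm.surjective.comp (hs.comp (Ψ (c, T)).surjective)) (Or.inr fun z => ?_)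
    change sk 1 ((Ψ (c', T)).symm (φ (Ψ (c, T) (sk 1 z)))) = (Ψ (c', T)).symm (φ (Ψ (c, T) z))
    rw [← hF, ← fam_symm hF, hφ]

end

/-- The reduction. -/
theorem reduction {A : Set (ℕ → ℕ)} (hA : AnalyticSet A) :
    ∃ f g : (ℕ → ℕ) → C(Cantor, Cantor), Continuous f ∧ Continuous g ∧
      (∀ a, RegExt (f a) ∧ RegExt (g a)) ∧ (∀ a ∈ A, Conj (f a) (g a)) ∧
      ∀ a ∉ A, ¬ Factor (f a) (g a) ∧ ¬ Factor (g a) (f a) ∧ ¬ InvFactor (f a) (g a) ∧
        ¬ InvFactor (g a) (f a) := by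
  obtain ⟨τ, hτ, hAτ⟩ := exists_trees hA
  obtain ⟨F, Ψ, hF⟩ := exists_family
  refine ⟨fun a => F (false, τ a), fun a => F (true, τ a),
    F.continuous.comp (continuous_const.prodMk hτ), F.continuous.comp (continuous_const.prodMk hτ),
    fun a => ⟨fam_regExt hF _, fam_regExt hF _⟩, fun a ha => ?_, fun a ha => ?_⟩
  · obtain ⟨v, hv1, hv2⟩ := (hAτ a).1 ha
    exact fam_conj hF hv1 hv2
  · refine ⟨fun h => ha ?_, fun h => ha ?_, fun h => ha ?_, fun h => ha ?_⟩
    · exact (hAτ a).2 (fam_factor hF (by decide) (Or.inl h))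
    · exact (hAτ a).2 (fam_factor hF (by decide) (Or.inl h))
    · exact (hAτ a).2 (fam_factor hF (by decide) (Or.inr h))
    · exact (hAτ a).2 (fam_factor hF (by decide) (Or.inr h))

/-- No Borel relation lies between conjugacy and the factor relations. -/
theorem not_borel (R : Set (C(Cantor, Cantor) × C(Cantor, Cantor)))
    (h1 : ∀ T S, RegExt T → RegExt S → Conj T S → (T, S) ∈ R)
    (h2 : ∀ T S, RegExt T → RegExt S → (T, S) ∈ R →
      Factor T S ∨ Factor S T ∨ InvFactor T S ∨ InvFactor S T) :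
    ¬ @MeasurableSet (C(Cantor, Cantor) × C(Cantor, Cantor))
      (borel (C(Cantor, Cantor) × C(Cantor, Cantor))) R := by
  intro hR
  obtain ⟨D, hD, hDn⟩ := exists_analytic_not_borel
  obtain ⟨f, g, hf, hg, hr, hc, hn⟩ := reduction hD
  apply hDn
  have hpre : (fun a => (f a, g a)) ⁻¹' R = D := by
    ext a
    constructor
    · intro ha
      by_contra hcon
      obtain ⟨n1, n2, n3, n4⟩ := hn a hcon
      rcases h2 _ _ (hr a).1 (hr a).2 ha with h | h | h | h
      · exact n1 h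
      · exact n2 h
      · exact n3 h
      · exact n4 h
    · intro ha
      exact h1 _ _ (hr a).1 (hr a).2 (hc a ha)
  rw [← hpre]
  have hcont : Continuous (fun a => (f a, g a)) := hf.prodMk hg
  exact hcont.borel_measurable hR

/-- The flip conjugacy relation. -/
theorem flip_not_borel :
    ¬ @MeasurableSet (C(Cantor, Cantor) × C(Cantor, Cantor))
      (borel (C(Cantor, Cantor) × C(Cantor, Cantor)))
      {p | ∃ e₁ e₂ : Cantor ≃ₜ Cantor, (⇑e₁ = ⇑p.1) ∧ (⇑e₂ = ⇑p.2) ∧
        (∀ x : Cantor, Dense (Set.range fun n : ℕ => (⇑e₁)^[n] x)) ∧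
        (∀ x : Cantor, Dense (Set.range fun n : ℕ => (⇑e₂)^[n] x)) ∧
        ∃ h : Cantor ≃ₜ Cantor, (⇑h ∘ ⇑e₁ = ⇑e₂ ∘ ⇑h ∨ ⇑h ∘ ⇑e₁ = ⇑e₂.symm ∘ ⇑h)} := by
  refine not_borel _ ?_ ?_
  · intro T S hT hS hc
    obtain ⟨⟨⟨e₁, he₁⟩, hd₁⟩, _⟩ := hT
    obtain ⟨⟨⟨e₂, he₂⟩, hd₂⟩, _⟩ := hS
    obtain ⟨h, hh⟩ := hc
    have h1 : ⇑e₁ = ⇑T := funext he₁
    have h2 : ⇑e₂ = ⇑S := funext he₂
    refine ⟨e₁, e₂, h1, h2, ?_, ?_, h, Or.inl ?_⟩
    · rw [h1]; exact hd₁
    · rw [h2]; exact hd₂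
    · rw [h1, h2]
      funext x
      exact hh x
  · rintro T S _ _ ⟨e₁, e₂, h1, h2, _, _, h, hh⟩
    rcases hh with hh | hh
    · refine Or.inl ⟨⟨h, h.continuous⟩, h.surjective, fun x => ?_⟩
      have h3 := congrFun hh x
      rw [h1, h2] at h3
      exact h3
    · refine Or.inr (Or.inr (Or.inl ⟨⟨h, h.continuous⟩, h.surjective, fun x => ?_⟩))
      have h3 := congrFun hh x
      simp only [Function.comp_apply] at h3
      change S (h (T x)) = h x
      rw [← h1, h3, ← h2, e₂.apply_symm_apply]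

end Pool.Agent.FlipC
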