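import Pool.Agent.FlipC.Cut

/-!
# Minimality of the cut systems
-/

namespace Pool.Agent.FlipC

open Set Filter Topology

theorem sg_fst (k : ℤ) (z : Om) (m : ℕ) : (sg k z).1 m = z.1 m + (k : ZMod (Nat.nth Nat.Prime m)) :=
  rfl

theorem Jm_co (n : ℕ) (i : Ix) (k : ℕ) : Jm n (co (i, k)) ↔ Fm n i := by
  simp [Jm]

theorem exists_bit (n : ℕ) (z : Om) : ∃ c : Bool, ∀ p, Hit n p z.1 → z.2 n p = c := by
  by_cases h : ∃ p, Hit n p z.1
  · obtain ⟨p, hp⟩ := h
    refine ⟨z.2 n p, fun p' hp' => ?_⟩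
    rw [hp.unique hp']
  · push Not at h
    exact ⟨false, fun p hp => absurd hp (h p)⟩

theorem exists_private (n : ℕ) (c : Bool) (N : ℕ) :
    ∃ m, N ≤ m ∧ (co.symm m).1 = some (Sum.inl n) ∧ bt n m = c := by
  cases c
  · obtain ⟨m, ⟨k, rfl⟩, hk⟩ :=
      (Set.infinite_range_of_injective (co_inj_par (some (Sum.inl n)) 0)).exists_gt N
    refine ⟨_, hk.le, by simp, ?_⟩
    unfold bt
    refine decide_eq_false ?_
    simp
  · obtain ⟨m, ⟨k, rfl⟩, hk⟩ :=
      (Set.infinite_range_of_injective (co_inj_par (some (Sum.inl n)) 1)).exists_gt N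
    refine ⟨_, hk.le, by simp, ?_⟩
    unfold bt
    refine decide_eq_true ?_
    simp

theorem approach {t : Par} {z z' : Om} (hz : z ∈ KK t) (hz' : z' ∈ KK t) (N : ℕ)
    (Q : Finset (ℕ × Pt)) :
    ∃ k : ℕ, (∀ m < N, (sg k z).1 m = z'.1 m) ∧
      ∀ q ∈ Q, (sg k z).2 q.1 q.2 = z'.2 q.1 q.2 := by
  classical
  let S : ℕ × Pt → ℕ := fun q => if h : ∃ m, Fst q.1 q.2 z'.1 m then h.choose + 1 else 0
  let N' := max N (Q.sup S)
  have hN : N ≤ N' := le_max_left _ _
  have hS : ∀ q ∈ Q, S q ≤ N' := fun q hq => le_trans (Finset.le_sup hq) (le_max_right _ _)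
  choose B hB using fun n => exists_bit n z'
  choose L hL1 hL2 hL3 using fun n => exists_private n (B n) N'
  let N'' := max N' (Q.sup (fun q => L q.1 + 1))
  have hN' : N' ≤ N'' := le_max_left _ _
  have hLQ : ∀ q ∈ Q, L q.1 < N'' := by
    intro q hq
    have h1 : L q.1 + 1 ≤ Q.sup (fun q => L q.1 + 1) := Finset.le_sup (f := fun q => L q.1 + 1) hq
    have h2 : Q.sup (fun q => L q.1 + 1) ≤ N'' := le_max_right _ _
    omega
  obtain ⟨k, hk⟩ := crt (fun m => z'.1 m - z.1 m + (if ∃ n, m = L n then 1 else 0)) N''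
  have hval : ∀ m < N'', (sg k z).1 m = z'.1 m + (if ∃ n, m = L n then 1 else 0) := by
    intro m hm
    rw [sg_fst, Int.cast_natCast, hk m hm]
    ring
  have hval0 : ∀ m < N'', (∀ n, m ≠ L n) → (sg k z).1 m = z'.1 m := by
    intro m hm hne
    rw [hval m hm, if_neg (by push Not; exact hne), add_zero]
  have hval1 : ∀ m < N', (sg k z).1 m = z'.1 m := by
    intro m hm
    refine hval0 m (by omega) (fun n h => ?_)
    have := hL1 n
    omega
  have hmem : sg k z ∈ KK t := sg_mem k hz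
  refine ⟨k, fun m hm => hval1 m (by omega), ?_⟩
  rintro ⟨n, p⟩ hq
  change (sg k z).2 n p = z'.2 n p
  by_cases hv : Val t n p
  · by_cases hh : Hit n p z'.1
    · have hF : Fst n p (sg k z).1 (L n) := by
        have hJ : Jm n (L n) := by
          unfold Jm
          rw [hL2 n]
          exact rfl
        refine ⟨⟨hJ, ?_⟩, ?_⟩
        · rw [hval (L n) (hLQ _ hq), if_pos ⟨n, rfl⟩, hh (L n) hJ]
          intro h
          have : (1 : ZMod (Nat.nth Nat.Prime (L n))) = 0 := by
            have h2 := add_eq_left.1 h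
            exact h2
          exact one_ne_zero this
        · intro m' hm' hJ'
          have hlt : m' < N'' := lt_trans hm' (hLQ _ hq)
          rw [hval0 m' hlt ?_]
          · exact hh m' hJ'
          · intro n' h
            by_cases hn : n' = n
            · subst hn
              omega
            · unfold Jm at hJ'
              rw [h, hL2 n'] at hJ'
              exact hn hJ'
      rw [(hmem n p).1 hv _ hF, hL3 n, hB n p hh]
    · have hex := exists_Fst hh
      have hSq : S (n, p) = hex.choose + 1 := dif_pos hex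
      have hsp : Fst n p z'.1 hex.choose := hex.choose_spec
      have hlt : hex.choose < N' := by
        have := hS (n, p) hq
        omega
      have hF : Fst n p (sg k z).1 hex.choose := by
        refine ⟨⟨hsp.1.1, ?_⟩, ?_⟩
        · rw [hval1 _ hlt]
          exact hsp.1.2
        · intro m' hm' hJ'
          rw [hval1 m' (by omega)]
          exact hsp.2 m' hm' hJ'
      rw [(hmem n p).1 hv _ hF, (hz' n p).1 hv _ hsp]
  · rw [(hmem n p).2 hv, (hz' n p).2 hv]

/-! ### Bits of the ambient space -/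

/-- Labels of bits. -/
abbrev La : Type := (Σ m : ℕ, ZMod (Nat.nth Nat.Prime m)) ⊕ (ℕ × Pt)

/-- The bit with a given label. -/
noncomputable def lb : La → Om → Bool
  | Sum.inl x => fun z => decide (z.1 x.1 = x.2)
  | Sum.inr q => fun z => z.2 q.1 q.2

theorem continuous_lb (l : La) : Continuous (lb l) := by
  rcases l with x | q
  · have hc : Continuous (fun z : Om => z.1 x.1) := (continuous_apply x.1).comp continuous_fst
    exact (continuous_of_discreteTopology (f := fun a : ZMod (Nat.nth Nat.Prime x.1) =>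
      decide (a = x.2))).comp hc
  · exact (continuous_apply q.2).comp ((continuous_apply q.1).comp continuous_snd)

theorem exists_enum : ∃ en : ℕ → La, Function.Surjective en := by
  haveI : Nonempty La := ⟨Sum.inr (0, 0)⟩
  haveI : ∀ m : ℕ, Countable (ZMod (Nat.nth Nat.Prime m)) := fun m => inferInstance
  exact exists_surjective_nat La

/-- A fixed enumeration of the labels. -/
noncomputable def en : ℕ → La := exists_enum.choose

theorem en_surj : Function.Surjective en := exists_enum.choose_spec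

/-- The sequence of bits. -/
noncomputable def bb (i : ℕ) : Om → Bool := lb (en i)

theorem continuous_bb (i : ℕ) : Continuous (bb i) := continuous_lb _

theorem bb_sep (z z' : Om) (h : ∀ i, bb i z = bb i z') : z = z' := by
  have hl : ∀ l, lb l z = lb l z' := by
    intro l
    obtain ⟨i, rfl⟩ := en_surj l
    exact h i
  refine Prod.ext ?_ ?_
  · funext m
    have := hl (Sum.inl ⟨m, z'.1 m⟩)
    simpa [lb] using this
  · funext n p
    exact hl (Sum.inr (n, p))

/-- Bits are determined by finitely many coordinates. -/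
theorem bb_fin (n : ℕ) : ∃ (N : ℕ) (Q : Finset (ℕ × Pt)), ∀ z z' : Om,
    (∀ m < N, z.1 m = z'.1 m) → (∀ q ∈ Q, z.2 q.1 q.2 = z'.2 q.1 q.2) →
    ∀ i < n, bb i z = bb i z' := by
  classical
  induction n with
  | zero => exact ⟨0, ∅, fun _ _ _ _ i hi => absurd hi (Nat.not_lt_zero i)⟩
  | succ n ih =>
    obtain ⟨N, Q, h⟩ := ih
    have hcase : ∀ l : La, ∃ (N' : ℕ) (Q' : Finset (ℕ × Pt)), ∀ z z' : Om,
        (∀ m < N', z.1 m = z'.1 m) → (∀ q ∈ Q', z.2 q.1 q.2 = z'.2 q.1 q.2) →
        lb l z = lb l z' := by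
      intro l
      rcases l with x | q
      · refine ⟨x.1 + 1, ∅, fun z z' h1 _ => ?_⟩
        simp only [lb]
        rw [h1 x.1 (by omega)]
      · exact ⟨0, {q}, fun z z' _ h2 => h2 q (Finset.mem_singleton_self q)⟩
    obtain ⟨N', Q', h'⟩ := hcase (en n)
    refine ⟨max N N', Q ∪ Q', fun z z' h1 h2 i hi => ?_⟩
    rcases Nat.lt_succ_iff_lt_or_eq.1 hi with hlt | heq
    · exact h z z' (fun m hm => h1 m (lt_of_lt_of_le hm (le_max_left _ _)))
        (fun q hq => h2 q (Finset.mem_union_left _ hq)) i hlt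
    · subst heq
      exact h' z z' (fun m hm => h1 m (lt_of_lt_of_le hm (le_max_right _ _)))
        (fun q hq => h2 q (Finset.mem_union_right _ hq))

theorem approach_bits {t : Par} {z z' : Om} (hz : z ∈ KK t) (hz' : z' ∈ KK t) (n : ℕ) :
    ∃ k : ℕ, ∀ i < n, bb i (sg k z) = bb i z' := by
  obtain ⟨N, Q, h⟩ := bb_fin n
  obtain ⟨k, h1, h2⟩ := approach hz hz' N Q
  exact ⟨k, h _ _ h1 h2⟩

theorem sg_ne {k : ℤ} (hk : k ≠ 0) (z : Om) : sg k z ≠ z := by
  intro h
  apply hk
  refine int_inj Function.injective_id (fun m => ?_)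
  have h1 : (sg k z).1 m = z.1 m := by rw [h]
  rw [sg_fst] at h1
  have h2 := add_eq_left.1 h1
  rw [id_eq, h2, Int.cast_zero]

theorem kk_perf {t : Par} {z : Om} (hz : z ∈ KK t) (n : ℕ) :
    ∃ z', z' ≠ z ∧ z' ∈ KK t ∧ ∀ i < n, bb i z' = bb i z := by
  obtain ⟨k, hk⟩ := approach_bits (sg_mem 1 hz) hz n
  refine ⟨sg k (sg 1 z), ?_, sg_mem _ (sg_mem _ hz), hk⟩
  rw [sg_sg]
  exact sg_ne (by omega) z

theorem kk_dense {t : Par} {z z' : Om} (hz : z ∈ KK t) (hz' : z' ∈ KK t) :
    ∃ u : ℕ → ℕ, Tendsto (fun n => sg (u n) z) atTop (𝓝 z') := by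
  choose u hu using fun n => approach_bits hz hz' n
  refine ⟨u, tendsto_of_bits bb continuous_bb bb_sep _ _ (fun i => ?_)⟩
  filter_upwards [eventually_gt_atTop i] with n hn
  exact hu n i hn

theorem kk_open (n : ℕ) (s : ℕ → Bool) (c : Bool) :
    IsOpen {t : Par | ∃ z, (t, z) ∈ KT ∧ (∀ i < n, bb i z = s i) ∧ bb n z = c} := by
  classical
  rw [isOpen_iff_mem_nhds]
  rintro t ⟨z, hz, h1, h2⟩
  obtain ⟨N, Q, hNQ⟩ := bb_fin (n + 1)
  have hU : IsOpen (⋂ q ∈ Q, {t' : Par | Val t' q.1 q.2 ↔ Val t q.1 q.2}) := by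
    refine isOpen_biInter_finset fun q _ => ?_
    by_cases hv : Val t q.1 q.2
    · convert (isClopen_val q.1 q.2).isOpen using 1
      ext t'; simp [hv]
    · convert (isClopen_val q.1 q.2).compl.isOpen using 1
      ext t'; simp [hv]
  have hmem : t ∈ ⋂ q ∈ Q, {t' : Par | Val t' q.1 q.2 ↔ Val t q.1 q.2} := by simp
  filter_upwards [hU.mem_nhds hmem] with t' ht'
  have ht'' : ∀ q ∈ Q, (Val t' q.1 q.2 ↔ Val t q.1 q.2) := by simpa using ht'
  have hz0 : z ∈ KK t := hz
  let z' : Om := (z.1, fun n' p => if (n', p) ∈ Q then z.2 n' p else dflt t' z.1 n' p)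
  have hz' : z' ∈ KK t' := by
    intro n' p
    change (Val t' n' p → ∀ m, Fst n' p z.1 m →
      (if (n', p) ∈ Q then z.2 n' p else dflt t' z.1 n' p) = bt n' m) ∧
      (¬ Val t' n' p → (if (n', p) ∈ Q then z.2 n' p else dflt t' z.1 n' p) = false)
    by_cases hq : (n', p) ∈ Q
    · rw [if_pos hq]
      have hiff := ht'' _ hq
      exact ⟨fun hv => (hz0 n' p).1 (hiff.1 hv), fun hv => (hz0 n' p).2 (fun h => hv (hiff.2 h))⟩
    · rw [if_neg hq]
      exact dflt_spec t' z.1 n' p
  have hag : ∀ i < n + 1, bb i z' = bb i z := by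
    refine hNQ z' z (fun m _ => rfl) (fun q hq => ?_)
    change (if (q.1, q.2) ∈ Q then z.2 q.1 q.2 else dflt t' z.1 q.1 q.2) = z.2 q.1 q.2
    rw [if_pos (by simpa using hq)]
  refine ⟨z', hz', fun i hi => ?_, ?_⟩
  · rw [hag i (by omega), h1 i hi]
  · rw [hag n (by omega), h2]

/-- The recoding of the family of cut systems. -/
theorem exists_recode : ∃ e : KT ≃ₜ Par × (ℕ → Bool), ∀ z : KT, (e z).1 = z.1.1 :=
  recode KT bb isClosed_KT continuous_bb bb_sep
    (fun t => ⟨((0 : Odo), dflt t 0), dflt_mem t 0⟩)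
    (fun t z n hz => by
      obtain ⟨z', h1, h2, h3⟩ := kk_perf (show z ∈ KK t from hz) n
      exact ⟨z', h1, h2, h3⟩)
    kk_open

end Pool.Agent.FlipC
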