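import Pool.Agent.FlipC.Min

/-!
# Rigidity of factor maps between cut systems
-/

namespace Pool.Agent.FlipC

open Set Filter Topology

/-- The space of the cut system. -/
abbrev KS (t : Par) : Type := {z : Om // z ∈ KK t}

/-- The integer translations on the cut system. -/
noncomputable def sk {t : Par} (k : ℤ) (z : KS t) : KS t := ⟨sg k z.1, sg_mem k z.2⟩

theorem continuous_sk {t : Par} (k : ℤ) : Continuous (sk (t := t) k) :=
  ((continuous_sg k).comp continuous_subtype_val).subtype_mk _

theorem sk_sk {t : Par} (k l : ℤ) (z : KS t) : sk k (sk l z) = sk (k + l) z :=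
  Subtype.ext (sg_sg k l z.1)

theorem sk_zero {t : Par} (z : KS t) : sk 0 z = z := Subtype.ext (sg_zero z.1)

theorem odo_int_apply (k : ℤ) (m : ℕ) : ((k : ℤ) : Odo) m = (k : ZMod (Nat.nth Nat.Prime m)) := rfl

/-- A point with a prescribed hit and nothing else prescribed. -/
theorem upd_mem {t : Par} {n : ℕ} {p : Pt} (hv : Val t n p) {g : Odo} (hg : Hit n p g) (c : Bool) :
    ∃ y : Om, y ∈ KK t ∧ y.1 = g ∧ y.2 n p = c := by
  classical
  refine ⟨(g, fun n1 p1 => if n1 = n ∧ p1 = p then c else dflt t g n1 p1), ?_, rfl, ?_⟩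
  · intro n1 p1
    change (Val t n1 p1 → ∀ m, Fst n1 p1 g m →
      (if n1 = n ∧ p1 = p then c else dflt t g n1 p1) = bt n1 m) ∧
      (¬ Val t n1 p1 → (if n1 = n ∧ p1 = p then c else dflt t g n1 p1) = false)
    by_cases h : n1 = n ∧ p1 = p
    · obtain ⟨rfl, rfl⟩ := h
      exact ⟨fun _ m hm => absurd hm (hg.not_Fst m), fun h => absurd hv h⟩
    · rw [if_neg h]
      exact dflt_spec t g n1 p1
  · simp

theorem rigid {t t' : Par} {Φ : KS t → KS t'} (hc : Continuous Φ) (hs : Function.Surjective Φ)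
    {ς : ℤ} (hς : ς = 1 ∨ ς = -1)
    (hΦ : ∀ z : KS t, (Φ (sk 1 z)).1.1 = (Φ z).1.1 + ((ς : ℤ) : Odo)) :
    ∃ θ : Odo, ∀ n p', Val t' n p' → ∃ p, Val t n p ∧ Hit n (p' - ς • p) θ := by
  classical
  let d : KS t → Odo := fun z => (Φ z).1.1 - ((ς : ℤ) : Odo) * z.1.1
  have hd1 : ∀ z, d (sk 1 z) = d z := by
    intro z
    have h2 : (sk 1 z).1.1 = z.1.1 + 1 := by
      change z.1.1 + (((1 : ℤ) : ℤ) : Odo) = z.1.1 + 1
      rw [Int.cast_one]
    simp only [d]
    rw [hΦ, h2]
    ring
  have hdk : ∀ (k : ℕ) z, d (sk k z) = d z := by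
    intro k
    induction k with
    | zero => intro z; rw [Nat.cast_zero, sk_zero]
    | succ k ih =>
      intro z
      have : sk ((k + 1 : ℕ) : ℤ) z = sk 1 (sk k z) := by
        rw [sk_sk]; congr 1; push_cast; ring
      rw [this, hd1, ih]
  have hdc : Continuous d := by
    refine Continuous.sub ?_ ?_
    · exact continuous_fst.comp (continuous_subtype_val.comp hc)
    · exact continuous_const.mul (continuous_fst.comp continuous_subtype_val)
  have hconst : ∀ z z', d z' = d z := by
    intro z z'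
    obtain ⟨u, hu⟩ := kk_dense z.2 z'.2
    have hu' : Tendsto (fun n => sk (u n) z) atTop (𝓝 z') := by
      rw [tendsto_subtype_rng]
      exact hu
    have h1 : Tendsto (fun n => d (sk (u n) z)) atTop (𝓝 (d z')) :=
      (hdc.tendsto z').comp hu'
    have h2 : (fun n => d (sk (u n) z)) = fun _ => d z := by
      funext n; exact hdk _ z
    rw [h2] at h1
    exact tendsto_nhds_unique h1 tendsto_const_nhds
  let z0 : KS t := ⟨((0 : Odo), dflt t 0), dflt_mem t 0⟩
  let θ : Odo := d z0
  have hθ : ∀ z, (Φ z).1.1 = ((ς : ℤ) : Odo) * z.1.1 + θ := by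
    intro z
    have h1 : d z = θ := hconst z0 z
    have h2 : d z = (Φ z).1.1 - ((ς : ℤ) : Odo) * z.1.1 := rfl
    rw [← h1, h2]
    ring
  have hsq : ((ς : ℤ) : Odo) * ((ς : ℤ) : Odo) = 1 := by
    rcases hς with h | h <;> rw [h] <;> simp
  refine ⟨θ, fun n p' hv' => ?_⟩
  let ξ : Odo := fun m => if Odd (co.symm m).2 then 1 else 0
  let g' : Odo := fun m => if Jm n m then ((E n p' m : ℤ) : ZMod (Nat.nth Nat.Prime m))
    else θ m + ((ς : ℤ) : ZMod (Nat.nth Nat.Prime m)) * ξ m
  have hg' : Hit n p' g' := by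
    intro m hm
    exact if_pos hm
  obtain ⟨y1, hy1, hy1g, hy1c⟩ := upd_mem hv' hg' true
  obtain ⟨y0, hy0, hy0g, hy0c⟩ := upd_mem hv' hg' false
  obtain ⟨w1, hw1⟩ := hs ⟨y1, hy1⟩
  obtain ⟨w0, hw0⟩ := hs ⟨y0, hy0⟩
  have hg1 : w1.1.1 = ((ς : ℤ) : Odo) * (g' - θ) := by
    have h1 := hθ w1
    rw [hw1] at h1
    change y1.1 = _ at h1
    rw [hy1g] at h1
    rw [h1, add_sub_cancel_right, ← mul_assoc, hsq, one_mul]
  have hg0 : w0.1.1 = ((ς : ℤ) : Odo) * (g' - θ) := by
    have h1 := hθ w0
    rw [hw0] at h1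
    change y0.1 = _ at h1
    rw [hy0g] at h1
    rw [h1, add_sub_cancel_right, ← mul_assoc, hsq, one_mul]
  have hne : w1.1 ≠ w0.1 := by
    intro h
    have h1 : w1 = w0 := Subtype.ext h
    rw [h1, hw0] at hw1
    have h2 : y0 = y1 := congrArg Subtype.val hw1
    rw [h2, hy1c] at hy0c
    exact Bool.noConfusion hy0c
  obtain ⟨n0, p, hv, hh⟩ := exists_hit w1.2 w0.2 (hg1.trans hg0.symm) hne
  rw [hg1] at hh
  have hn0 : n0 = n := by
    by_contra hnn
    have hJ : ∀ k, ¬ Jm n (co (some (Sum.inl n0), k)) := by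
      intro k
      rw [Jm_co]
      exact hnn
    have hval : ∀ k, ((p.1 : ℤ) : ZMod (Nat.nth Nat.Prime (co (some (Sum.inl n0), k)))) =
        ξ (co (some (Sum.inl n0), k)) := by
      intro k
      have h1 := hh (co (some (Sum.inl n0), k)) ((Jm_co _ _ _).2 rfl)
      have h2 : E n0 p (co (some (Sum.inl n0), k)) = p.1 := by simp [E, ev]
      rw [h2] at h1
      rw [← h1]
      have h3 : g' (co (some (Sum.inl n0), k)) = θ (co (some (Sum.inl n0), k)) +
          ((ς : ℤ) : ZMod (Nat.nth Nat.Prime (co (some (Sum.inl n0), k)))) *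
            ξ (co (some (Sum.inl n0), k)) := if_neg (hJ k)
      rw [Pi.mul_apply, Pi.sub_apply, h3, add_sub_cancel_left, odo_int_apply, ← mul_assoc]
      have h4 := congrFun hsq (co (some (Sum.inl n0), k))
      rw [Pi.mul_apply, odo_int_apply, Pi.one_apply] at h4
      rw [h4, one_mul]
    have h0 : p.1 = 0 := by
      refine int_inj (co_inj_par (some (Sum.inl n0)) 0) (fun k => ?_)
      have h1 := hval (2 * k + 0)
      rw [h1]
      have : ¬ Odd (co.symm (co (some (Sum.inl n0), 2 * k + 0))).2 := by simp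
      simp only [ξ, if_neg this, Int.cast_zero]
    have h1 : p.1 = 1 := by
      refine int_inj (co_inj_par (some (Sum.inl n0)) 1) (fun k => ?_)
      have h1 := hval (2 * k + 1)
      rw [h1]
      have : Odd (co.symm (co (some (Sum.inl n0), 2 * k + 1))).2 := by simp
      simp only [ξ, if_pos this, Int.cast_one]
    omega
  subst hn0
  refine ⟨p, hv, fun m hm => ?_⟩
  have h1 := hh m hm
  rw [Pi.mul_apply, Pi.sub_apply, hg' m hm, odo_int_apply] at h1
  have h4 := congrFun hsq m
  rw [Pi.mul_apply, odo_int_apply, Pi.one_apply] at h4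
  rw [E_sub, E_smul, Int.cast_sub, Int.cast_mul, ← h1, ← mul_assoc, h4, one_mul]
  ring

/-- From the translation data to an infinite branch. -/
theorem rigid_branch {T : ℕ → ℕ → Bool} {c c' : Bool} (hcc : c ≠ c') {θ : Odo} {ς : ℤ}
    (hς : ς = 1 ∨ ς = -1)
    (h : ∀ n p', Val (c', T) n p' → ∃ p, Val (c, T) n p ∧ Hit n (p' - ς • p) θ) :
    ∃ v : ℕ → ℕ, (∀ n, par (v (n + 1)) = v n) ∧ ∀ n, 0 < n → T n (v n) = true := by
  have hq : ∀ n, ∃ q : Pt, Hit n q θ ∧ (n = 0 → tot q.2 ≠ 0) ∧
      (0 < n → ∀ s ∈ q.2.support, T n s = true) := by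
    intro n
    rcases Nat.eq_zero_or_pos n with rfl | hn
    · obtain ⟨p, hp, hH⟩ := h 0 (0, Finsupp.single 0 (bv c'))
        ⟨fun _ => tot_single 0 _, fun h => absurd h (lt_irrefl 0)⟩
      refine ⟨_, hH, fun _ => ?_, fun h => absurd h (lt_irrefl 0)⟩
      have h1 : tot ((((0 : ℤ), Finsupp.single 0 (bv c')) : Pt) - ς • p).2 =
          bv c' - ς * bv c := by
        have h2 := hp.1 rfl
        rw [Prod.snd_sub, Prod.smul_snd, tot_sub, tot_smul, tot_single, h2]
      rw [h1]
      revert hcc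
      rcases hς with rfl | rfl <;> cases c <;> cases c' <;> simp [bv]
    · obtain ⟨p, hp, hH⟩ := h n 0 ⟨fun h => absurd h hn.ne', fun _ s hs => by simp at hs⟩
      refine ⟨_, hH, fun h => absurd h hn.ne', fun _ s hs => ?_⟩
      refine hp.2 hn s ?_
      rw [Finsupp.mem_support_iff] at hs ⊢
      intro h0
      apply hs
      rw [Prod.snd_sub, Prod.smul_snd, Finsupp.sub_apply, Finsupp.smul_apply, h0]
      simp
  choose q hq1 hq2 hq3 using hq
  have hmap : ∀ n, (q n).2 = Finsupp.mapDomain par (q (n + 1)).2 := by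
    intro n
    have h1 : (q n).1 = (q (n + 1)).1 :=
      (hq1 n).ev_eq (hq1 (n + 1)) (i := none) trivial trivial
    ext s
    have h2 := (hq1 n).ev_eq (hq1 (n + 1)) (i := some (Sum.inr (n, s))) (Or.inl rfl)
      (Or.inr rfl)
    simp only [ev, if_true, h1, if_neg (Nat.succ_ne_self n).symm] at h2
    omega
  have hnext : ∀ n s, s ∈ (q n).2.support → ∃ s', s' ∈ (q (n + 1)).2.support ∧ par s' = s := by
    classical
    intro n s hs
    rw [hmap n] at hs
    have h1 := Finsupp.mapDomain_support hs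
    rw [Finset.mem_image] at h1
    exact h1
  choose nx hnx1 hnx2 using hnext
  have h0 : ∃ s, s ∈ (q 0).2.support := by
    by_contra hcon
    push Not at hcon
    apply hq2 0 rfl
    have : (q 0).2 = 0 := by
      ext s
      exact Finsupp.notMem_support_iff.1 (hcon s)
    rw [this]
    simp [tot]
  obtain ⟨s0, hs0⟩ := h0
  let w : ∀ n, {s : ℕ // s ∈ (q n).2.support} := fun n =>
    Nat.rec (motive := fun n => {s : ℕ // s ∈ (q n).2.support}) ⟨s0, hs0⟩
      (fun n x => ⟨nx n x.1 x.2, hnx1 n x.1 x.2⟩) n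
  refine ⟨fun n => (w n).1, fun n => hnx2 n (w n).1 (w n).2, fun n hn => hq3 n hn _ (w n).2⟩

/-- Factor maps between the two systems of a tree force an infinite branch. -/
theorem rigid_all {T : ℕ → ℕ → Bool} {c c' : Bool} (hcc : c ≠ c')
    {Φ : KS (c, T) → KS (c', T)} (hc : Continuous Φ) (hs : Function.Surjective Φ)
    (hΦ : (∀ z, Φ (sk 1 z) = sk 1 (Φ z)) ∨ (∀ z, sk 1 (Φ (sk 1 z)) = Φ z)) :
    ∃ v : ℕ → ℕ, (∀ n, par (v (n + 1)) = v n) ∧ ∀ n, 0 < n → T n (v n) = true := by
  rcases hΦ with h | h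
  · obtain ⟨θ, hθ⟩ := rigid hc hs (Or.inl rfl : (1 : ℤ) = 1 ∨ (1 : ℤ) = -1)
      (fun z => by rw [h z]; rfl)
    exact rigid_branch hcc (Or.inl rfl) hθ
  · obtain ⟨θ, hθ⟩ := rigid hc hs (Or.inr rfl : (-1 : ℤ) = 1 ∨ (-1 : ℤ) = -1)
      (fun z => by
        have h1 : Φ (sk 1 z) = sk (-1) (Φ z) := by
          rw [← h z, sk_sk]
          norm_num
          rw [sk_zero]
        rw [h1]; rfl)
    exact rigid_branch hcc (Or.inr rfl) hθ

/-- An infinite branch gives a conjugacy. -/
theorem branch_iso {T : ℕ → ℕ → Bool} {v : ℕ → ℕ} (hv1 : ∀ n, par (v (n + 1)) = v n)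
    (hv2 : ∀ n, 0 < n → T n (v n) = true) :
    ∃ Ψ : KS (false, T) ≃ₜ KS (true, T), ∀ z, Ψ (sk 1 z) = sk 1 (Ψ z) := by
  classical
  let q : ℕ → Pt := fun n => (0, Finsupp.single (v n) 1)
  let val : Ix → ℤ := fun i => match i with
    | none => 0
    | some (Sum.inl _) => 0
    | some (Sum.inr (l, s)) => if s = v l then 1 else 0
  let θ : Odo := fun m => ((val (co.symm m).1 : ℤ) : ZMod (Nat.nth Nat.Prime m))
  have hθ : ∀ n, Hit n (q n) θ := by
    intro n m hm
    have key : ∀ i, Fm n i → val i = ev n (q n) i := by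
      intro i hi
      rcases i with _ | (m | ⟨l, s⟩)
      · rfl
      · rfl
      · simp only [val, ev, q]
        by_cases hl : l = n
        · subst hl
          rw [if_pos rfl, zero_add, Finsupp.single_apply]
          simp only [eq_comm]
        · have hl' : l + 1 = n := by
            rcases hi with h | h
            · exact absurd h hl
            · exact h
          subst hl'
          rw [if_neg hl, zero_add, Finsupp.mapDomain_single, hv1, Finsupp.single_apply]
          simp only [eq_comm]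
    simp only [θ, E]
    rw [key _ hm]
  have hθ' : ∀ n, Hit n (-(q n)) (-θ) := by
    intro n m hm
    have h1 : E n (-(q n)) m = - E n (q n) m := by
      have := E_sub n 0 (q n) m
      rw [zero_sub] at this
      rw [this]
      have h0 : E n 0 m = 0 := E_int n 0 m
      rw [h0, zero_sub]
    rw [h1, Pi.neg_apply, hθ n m hm, Int.cast_neg]
  have hval : ∀ n p, Val (true, T) n p ↔ Val (false, T) n (p - q n) := by
    intro n p
    unfold Val
    refine and_congr ?_ ?_
    · refine forall_congr' fun hn => ?_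
      simp only [q, Prod.snd_sub, tot_sub, tot_single, bv]
      simp only [if_true, Bool.false_eq_true, if_false]
      constructor <;> intro h <;> omega
    · refine forall_congr' fun hn => ?_
      constructor
      · intro h s hs
        by_cases hsv : s = v n
        · rw [hsv]; exact hv2 n hn
        · refine h s ?_
          rw [Finsupp.mem_support_iff] at hs ⊢
          simpa [q, Finsupp.single_apply, Ne.symm hsv] using hs
      · intro h s hs
        by_cases hsv : s = v n
        · rw [hsv]; exact hv2 n hn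
        · refine h s ?_
          rw [Finsupp.mem_support_iff] at hs ⊢
          simpa [q, Finsupp.single_apply, Ne.symm hsv] using hs
  have hval' : ∀ n p, Val (false, T) n p ↔ Val (true, T) n (p - (-(q n))) := by
    intro n p
    rw [hval n (p - (-(q n)))]
    simp
  have e1 : ∀ z : Om, tr (-θ) (fun n => -(q n)) (tr θ q z) = z := by
    intro z
    rw [tr_tr]
    have h1 : ((fun n => -(q n)) + q) = 0 := by funext n; simp
    rw [h1, add_neg_cancel, tr_zero]
  have e2 : ∀ z : Om, tr θ q (tr (-θ) (fun n => -(q n)) z) = z := by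
    intro z
    rw [tr_tr]
    have h1 : (q + fun n => -(q n)) = 0 := by funext n; simp
    rw [h1, neg_add_cancel, tr_zero]
  refine ⟨{ toFun := fun z => ⟨tr θ q z.1, tr_mem hθ hval z.2⟩
            invFun := fun z => ⟨tr (-θ) (fun n => -(q n)) z.1, tr_mem hθ' hval' z.2⟩
            left_inv := fun z => Subtype.ext (e1 z.1)
            right_inv := fun z => Subtype.ext (e2 z.1)
            continuous_toFun :=
              ((continuous_tr θ q).comp continuous_subtype_val).subtype_mk _
            continuous_invFun :=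
              ((continuous_tr (-θ) _).comp continuous_subtype_val).subtype_mk _ }, ?_⟩
  intro z
  refine Subtype.ext ?_
  change tr θ q (tr _ _ z.1) = tr _ _ (tr θ q z.1)
  rw [tr_tr, tr_tr, add_comm, add_comm q]

end Pool.Agent.FlipC
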